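import Pool.Agent.KS6_18.ITM.Q

/-!
Reduction to 2-connected graphs for constructions with a dead label.  The decomposition into blocks
follows the proof of `dt_of_blocks` in the library.
-/

set_option autoImplicit false

namespace Pool.Agent.KS6_18.ITM

open SimpleGraph Pool.Agent.H175R2 Pool.Agent.W124.ITM Finset Classical

theorem q_of_blocks {W : Type} (H : SimpleGraph W) (k : ℕ) (hk : 2 ≤ k)
    (h2 : ∀ (V : Type) [Fintype V] (G : SimpleGraph V), TwoConn G → ¬ IsITM H G →
      ∀ c, RootQ k G univ c) :
    ∀ (n : ℕ) (V : Type) [Fintype V] (G : SimpleGraph V), Fintype.card V ≤ n → Cn G univ →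
      ¬ IsITM H G → ∃ l, Q k G univ l := by
  intro n
  induction n with
  | zero =>
    intro V _ G hn hc _
    obtain ⟨x, _⟩ := hc.1
    have := Fintype.card_pos_iff.2 ⟨x⟩
    omega
  | succ n ih =>
    intro V _ G hn hc hT
    obtain ⟨x0, _⟩ := hc.1
    by_cases h3 : 3 ≤ Fintype.card V
    · by_cases hcut : ∀ v, Cn G (univ.erase v)
      · exact ⟨_, h2 V G ⟨h3, hc, hcut⟩ hT x0 0⟩
      push Not at hcut
      obtain ⟨c0, hc0⟩ := hcut
      -- choose a smallest leaf
      have hex : ((univ : Finset (V × V)).filter (fun p => p.2 ≠ p.1 ∧ ¬ Cn G (univ.erase p.1))).Nonempty := by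
        have : 1 < Fintype.card V := by omega
        obtain ⟨y, hy⟩ := Fintype.exists_ne_of_one_lt_card this c0
        exact ⟨(c0, y), by simp [hy, hc0]⟩
      obtain ⟨⟨c, x⟩, hcx, hmin⟩ := exists_min_image _
        (fun p : V × V => (cpt G (univ.erase p.1) p.2).card) hex
      simp only [mem_filter, mem_univ, true_and] at hcx hmin
      obtain ⟨hxc, hcn⟩ := hcx
      have hxE : x ∈ univ.erase c := mem_erase.2 ⟨hxc, mem_univ _⟩
      set D := cpt G (univ.erase c) x with hD
      have hDc : Cn G D := cn_cpt hxE
      have hcD : c ∉ D := fun h => notMem_erase c univ (cpt_subset h)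
      have hDne : ∃ y, y ≠ c ∧ y ∉ D := by
        by_contra hcon
        push Not at hcon
        apply hcn
        apply cn_of_cpt_eq hxE
        apply subset_antisymm cpt_subset
        intro y hy
        exact hcon y (mem_erase.1 hy).1
      have hnb : ∀ a ∈ D, ∀ b, b ∉ D → G.Adj a b → b = c := by
        intro a ha b hb hab
        by_contra hbc
        exact not_adj_cpt hxE ha (mem_erase.2 ⟨hbc, mem_univ _⟩) hb hab
      have hcD' : Tc G {c} D := by
        obtain ⟨a, ha, b, hb, hab⟩ := hc.2 D (subset_univ _) hDc.1 ⟨c, by simp [hcD]⟩
        have := hnb a ha b (mem_sdiff.1 hb).2 hab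
        subst this
        exact ⟨b, by simp, a, ha, hab.symm⟩
      have hR1 : Cn G (D ∪ {c}) := hDc.union (Cn.singleton c) (Or.inl hcD'.symm)
      have hR2 : Cn G (univ \ D) := by
        have hcU : c ∈ univ \ D := by simp [hcD]
        apply cn_of_cpt_eq hcU
        apply subset_antisymm cpt_subset
        intro y hy
        by_contra hyc
        -- the component of y in `univ \ D` avoids c
        have hyU : y ∈ univ \ D := hy
        have hc' : c ∉ cpt G (univ \ D) y := by
          intro h
          apply hyc
          have := cpt_eq_of_mem hyU h
          rw [this]; exact mem_cpt_self hyU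
        obtain ⟨a, ha, b, hb, hab⟩ := hc.2 (cpt G (univ \ D) y) (subset_univ _)
          ⟨y, mem_cpt_self hyU⟩ ⟨c, by simp [hc']⟩
        have hbc := (mem_sdiff.1 hb).2
        by_cases hbD : b ∈ D
        · have haD : a ∉ D := by
            have := cpt_subset (G := G) ha
            simpa using this
          have := hnb b hbD a haD hab.symm
          subst this; exact hc' ha
        · exact not_adj_cpt hyU ha (by simp [hbD]) hbc hab
      have hsep : Sep G (D ∪ {c}) (univ \ D) c := by
        refine ⟨fun y => ?_, by simp, by simp [hcD], fun y h1 h2 => ?_, fun a ha b hb hab => ?_⟩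
        · simp only [mem_union, mem_singleton, mem_sdiff, mem_univ, true_and]; tauto
        · simp only [mem_union, mem_singleton, mem_sdiff, mem_univ, true_and] at h1 h2; tauto
        · simp only [mem_union, mem_singleton, mem_sdiff, mem_univ, true_and] at ha hb
          rcases ha with ha | ha
          · right; exact hnb a ha b hb hab
          · left; exact ha
      have hcardR2 : (univ \ D).card ≤ n := by
        have : (univ \ D).card < (univ : Finset V).card := card_lt_card (by
          refine ⟨sdiff_subset, fun h => ?_⟩
          obtain ⟨d, hd⟩ := hDc.1
          exact (mem_sdiff.1 (h (mem_univ d))).2 hd)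
        rw [card_univ] at this; omega
      have dtR2 : ∃ l, Q k G (univ \ D) l := by
        obtain ⟨l, hl⟩ := ih (Pool.Agent.H175R2.Sub (univ \ D)) (G.comap (emb _)) (by
          rw [card_sub]; exact hcardR2) (by
            apply Cn.comap; rw [map_univ_sub]; exact hR2)
          (fun h => hT (h.mono_right (comap_ind _)))
        refine ⟨fun x => if h : x ∈ univ \ D then l (mkS x h) else 0, ?_⟩
        have := hl.map (fun x => if h : x ∈ univ \ D then l (mkS x h) else 0) (fun x _ => by
          rw [dif_pos (emb_mem x), mkS_emb])
        rwa [map_univ_sub] at this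
      have dtR1 : RootQ k G (D ∪ {c}) c := by
        by_cases hD1 : D.card ≤ 1
        · obtain ⟨d, hd⟩ := card_eq_one.1 (le_antisymm hD1 (card_pos.2 hDc.1))
          rw [hd]
          have hdc : G.Adj d c := by
            obtain ⟨x', hx', y', hy', hxy⟩ := hcD'
            rw [mem_singleton] at hx'
            rw [hd, mem_singleton] at hy'
            subst hx'; subst hy'
            exact hxy.symm
          exact rootQ_pair hk hdc
        · have hTwo : TwoConn (G.comap (emb (D ∪ {c}))) := by
            refine ⟨?_, ?_, ?_⟩
            · rw [card_sub, card_union_of_disjoint (by simpa using hcD)]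
              simp; omega
            · apply Cn.comap; rw [map_univ_sub]; exact hR1
            · intro v'
              obtain ⟨v, hv, rfl⟩ : ∃ (v : V) (hv : v ∈ D ∪ {c}), v' = mkS v hv :=
                ⟨emb _ v', emb_mem v', rfl⟩
              apply Cn.comap
              have e : ((univ : Finset (Pool.Agent.H175R2.Sub (D ∪ {c}))).erase (mkS v hv)).map
                  (emb (D ∪ {c})) = (D ∪ {c}).erase v := by
                ext z
                rw [mem_map, mem_erase]
                constructor
                · rintro ⟨u, h1, rfl⟩
                  rw [mem_erase] at h1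
                  exact ⟨fun h => h1.1 (Subtype.ext h), emb_mem u⟩
                · rintro ⟨h1, h2⟩
                  refine ⟨mkS z h2, ?_, rfl⟩
                  rw [mem_erase]
                  exact ⟨fun h => h1 (congrArg (emb _) h), mem_univ _⟩
              rw [e]
              by_cases hvc : v = c
              · subst hvc
                have : (D ∪ {v}).erase v = D := by
                  ext z; simp only [mem_erase, mem_union, mem_singleton]
                  constructor
                  · tauto
                  · intro hz; exact ⟨by rintro rfl; exact hcD hz, Or.inl hz⟩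
                rw [this]; exact hDc
              · have hvD : v ∈ D := by
                  rcases mem_union.1 hv with h | h
                  · exact h
                  · exact absurd (mem_singleton.1 h) hvc
                have hcR : c ∈ (D ∪ {c}).erase v := mem_erase.2 ⟨Ne.symm hvc, by simp⟩
                apply cn_of_cpt_eq hcR
                apply subset_antisymm cpt_subset
                intro y hy
                by_contra hyc
                have hc' : c ∉ cpt G ((D ∪ {c}).erase v) y := by
                  intro h
                  apply hyc
                  have := cpt_eq_of_mem hy h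
                  rw [this]; exact mem_cpt_self hy
                set D' := cpt G ((D ∪ {c}).erase v) y with hD'
                have hyv : y ≠ v := (mem_erase.1 hy).1
                have hD'sub : D' ⊆ D.erase v := by
                  intro z hz
                  have h1 := mem_erase.1 (cpt_subset hz)
                  refine mem_erase.2 ⟨h1.1, ?_⟩
                  rcases mem_union.1 h1.2 with h | h
                  · exact h
                  · rw [mem_singleton] at h; subst h; exact absurd hz hc'
                have hclosed : cpt G (univ.erase v) y ⊆ D' := by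
                  by_contra hns
                  have hyE : y ∈ univ.erase v := mem_erase.2 ⟨hyv, mem_univ _⟩
                  have hDs : D' ⊆ cpt G (univ.erase v) y := by
                    apply subset_cpt _ (cn_cpt hy) (mem_cpt_self hy)
                    intro z hz
                    exact mem_erase.2 ⟨(mem_erase.1 (hD'sub hz)).1, mem_univ _⟩
                  obtain ⟨a, ha, b, hb, hab⟩ := (cn_cpt hyE).2 D' hDs ⟨y, mem_cpt_self hy⟩ (by
                    rw [sdiff_nonempty]; exact hns)
                  obtain ⟨hb1, hb2⟩ := mem_sdiff.1 hb
                  have hbv : b ≠ v := (mem_erase.1 (cpt_subset hb1)).1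
                  have haD := (mem_erase.1 (hD'sub ha)).2
                  have hbR : b ∈ D ∪ {c} := by
                    by_cases hbD : b ∈ D
                    · exact mem_union_left _ hbD
                    · have := hnb a haD b hbD hab
                      subst this; simp
                  exact not_adj_cpt hy ha (mem_erase.2 ⟨hbv, hbR⟩) hb2 hab
                have := hmin (v, y) ⟨hyv, fun hcnv => by
                  have hyE : y ∈ univ.erase v := mem_erase.2 ⟨hyv, mem_univ _⟩
                  have h5 := hcnv.cpt_eq hyE
                  have h6 : c ∈ cpt G (univ.erase v) y := by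
                    rw [h5]; exact mem_erase.2 ⟨Ne.symm hvc, mem_univ _⟩
                  exact hc' (hclosed h6)⟩
                simp only at this
                have h7 := (card_le_card hclosed).trans (card_le_card hD'sub)
                have h8 : (D.erase v).card < D.card := by
                  rw [card_erase_of_mem hvD]
                  have := card_pos.2 ⟨v, hvD⟩
                  omega
                omega
          have hcS : c ∈ D ∪ {c} := by simp
          intro p
          have := (h2 _ _ hTwo (fun h => hT (h.mono_right (comap_ind _))) (mkS c hcS) p).map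
            (fun x => if x = c then p else 0) (fun x _ => by
              by_cases hx : x = mkS c hcS
              · subst hx
                rw [emb_mkS, if_pos rfl, if_pos rfl]
              · rw [if_neg hx, if_neg]
                intro h
                apply hx
                apply (emb (D ∪ {c})).injective
                rw [h, emb_mkS])
          rwa [map_univ_sub] at this
      obtain ⟨l, hl⟩ := dtR2
      have h5 := Q.subst (D := D) (c := c) hcD (fun p => by
        have := dtR1 p
        rwa [union_comm, ← insert_eq] at this) hl sdiff_disjoint (by simp [hcD]) (by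
          intro x hx hxc y hy hxy
          exact hxc (hnb y hy x (mem_sdiff.1 hx).2 hxy.symm))
      have e : univ \ D ∪ D = (univ : Finset V) := by
        ext z; simp only [mem_union, mem_sdiff, mem_univ, true_and, iff_true]; tauto
      rw [e] at h5
      exact ⟨_, h5⟩
    · -- at most two vertices
      by_cases h1 : Fintype.card V ≤ 1
      · have : (univ : Finset V) = {x0} := by
          apply (Finset.eq_singleton_iff_unique_mem).2 ⟨mem_univ _, fun y _ => ?_⟩
          exact Fintype.card_le_one_iff.1 h1 y x0
        rw [this]; exact ⟨fun _ => 0, Q.single x0 _⟩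
      · have h22 : (univ : Finset V).card = 2 := by rw [card_univ]; omega
        obtain ⟨a, b, hab, he⟩ := card_eq_two.1 h22
        have e : (univ : Finset V) = {a} ∪ {b} := by rw [he]; rfl
        have hab' : G.Adj a b := by
          obtain ⟨x', hx', y', hy', hxy⟩ := hc.2 {a} (subset_univ _) ⟨a, by simp⟩ ⟨b, by
            simp [Ne.symm hab]⟩
          rw [mem_singleton] at hx'
          rw [he] at hy'
          subst hx'
          simp only [mem_sdiff, mem_insert, mem_singleton] at hy'
          rcases hy'.1 with h | h
          · exact absurd h hy'.2
          · rw [← h]; exact hxy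
        rw [he]
        exact ⟨_, rootQ_pair hk hab' 0⟩


/-- union of components -/
lemma q_of_components {V : Type} {k : ℕ} {G : SimpleGraph V} {R : Finset V} (hR : R.Nonempty)
    (h : ∀ x ∈ R, ∃ l, Q k G (cpt G R x) l) : ∃ l, Q k G R l := by
  have key : ∀ n : ℕ, ∀ S ⊆ R, S.card ≤ n → S.Nonempty → (∀ x ∈ S, cpt G R x ⊆ S) →
      ∃ l, Q k G S l := by
    intro n
    induction n with
    | zero =>
      intro S _ hc hn
      rw [Nat.le_zero, card_eq_zero] at hc
      rw [hc] at hn; simp at hn
    | succ n ih =>
      intro S hS hc hn hcl
      obtain ⟨x, hx⟩ := hn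
      obtain ⟨l1, hl1⟩ := h x (hS hx)
      by_cases he : (S \ cpt G R x).Nonempty
      · have e : S = cpt G R x ∪ (S \ cpt G R x) := by
          rw [union_sdiff_of_subset (hcl x hx)]
        have hcard : (S \ cpt G R x).card ≤ n := by
          have : (S \ cpt G R x).card < S.card := card_lt_card (by
            refine ⟨sdiff_subset, fun h' => ?_⟩
            exact (mem_sdiff.1 (h' hx)).2 (mem_cpt_self (hS hx)))
          omega
        obtain ⟨l2, hl2⟩ := ih (S \ cpt G R x) (sdiff_subset.trans hS) hcard he (by
          intro y hy z hz
          obtain ⟨hyS, hyc⟩ := mem_sdiff.1 hy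
          refine mem_sdiff.2 ⟨hcl y hyS hz, fun hz' => hyc ?_⟩
          have e1 := cpt_eq_of_mem (hS hyS) hz
          have e2 := cpt_eq_of_mem (hS hx) hz'
          rw [← e2, e1]
          exact mem_cpt_self (hS hyS))
        rw [e]
        refine ⟨fun y => if y ∈ cpt G R x then l1 y else l2 y, Q.union' ∅ ?_ (by simp) hl1 hl2
          (fun y hy => ?_) (fun y hy => ?_) (by simp) ?_⟩
        · exact disjoint_sdiff
        · rw [if_pos hy]
        · rw [if_neg (mem_sdiff.1 hy).2]
        · intro y hy z hz hyz
          exact absurd hyz (not_adj_cpt (hS hx) hy (hS (mem_sdiff.1 hz).1) (mem_sdiff.1 hz).2)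
      · have e : S = cpt G R x := by
          apply subset_antisymm _ (hcl x hx)
          rw [not_nonempty_iff_eq_empty, sdiff_eq_empty_iff_subset] at he
          exact he
        rw [e]
        exact ⟨l1, hl1⟩
  exact key R.card R (Subset.refl _) le_rfl hR (fun x _ => cpt_subset)

theorem cwLE_of_blocks {W : Type} (H : SimpleGraph W) (k : ℕ) (hk : 2 ≤ k)
    (h2 : ∀ (V : Type) [Fintype V] (G : SimpleGraph V), TwoConn G → ¬ IsITM H G →
      ∀ c, RootQ k G univ c)
    (V : Type) [Fintype V] [Nonempty V] (G : SimpleGraph V) (hG : ¬ IsITM H G) :
    CwLE G (k + 1) := by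
  have hq : ∃ l, Q k G univ l := by
    apply q_of_components univ_nonempty
    intro x _
    set C := cpt G univ x with hC
    have hCn : Cn G C := cn_cpt (mem_univ _)
    obtain ⟨l, hl⟩ := q_of_blocks H k hk h2 (Fintype.card (Pool.Agent.H175R2.Sub C))
      (Pool.Agent.H175R2.Sub C) (G.comap (emb C)) le_rfl
      (by apply Cn.comap; rw [map_univ_sub]; exact hCn) (fun h => hG (h.mono_right (comap_ind _)))
    refine ⟨fun x => if h : x ∈ C then l (mkS x h) else 0, ?_⟩
    have := hl.map (fun x => if h : x ∈ C then l (mkS x h) else 0) (fun x _ => by
      rw [dif_pos (emb_mem x), mkS_emb])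
    rwa [map_univ_sub] at this
  obtain ⟨l, hl⟩ := hq
  exact cwLE_of_gb hl.toGB

end Pool.Agent.KS6_18.ITM
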