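import Pool.Agent.KS6_18.ITM.Node

/-!
The cycle with 37 vertices cannot be built with three labels.
-/

set_option autoImplicit false

namespace Pool.Agent.KS6_18.ITM

open SimpleGraph Pool.Agent.H175R2

/-- the cycle with 37 vertices -/
def C37 : SimpleGraph (ZMod 37) where
  Adj x y := y = x + 1 ∨ x = y + 1
  symm := ⟨fun _ _ h => h.symm⟩
  loopless := ⟨fun x h => by
    rcases h with h | h <;>
    · have : (1 : ZMod 37) = 0 := by linear_combination -h
      exact absurd this (by decide)⟩

lemma c37_adj {x y : ZMod 37} : C37.Adj x y ↔ y = x + 1 ∨ x = y + 1 := Iff.rfl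

lemma ne1 : (1 : ZMod 37) ≠ 0 := by decide
lemma ne2 : (2 : ZMod 37) ≠ 0 := by decide
lemma ne3 : (3 : ZMod 37) ≠ 0 := by decide
lemma ne4 : (4 : ZMod 37) ≠ 0 := by decide

/-- seven consecutive vertices -/
def Arc (S : Set (ZMod 37)) : Prop := ∃ x : ZMod 37, ∀ i : ℕ, i < 7 → x + (i : ZMod 37) ∈ S

lemma closed_univ {S : Set (ZMod 37)} (hS : S.Nonempty) (h : ∀ x ∈ S, x + 1 ∈ S) :
    S = Set.univ := by
  obtain ⟨y, hy⟩ := hS
  have key : ∀ i : ℕ, y + (i : ZMod 37) ∈ S := by
    intro i
    induction i with
    | zero => simpa using hy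
    | succ i ih =>
      have := h _ ih
      rw [Nat.cast_succ, ← add_assoc]; exact this
  ext z
  simp only [Set.mem_univ, iff_true]
  have := key (z - y).val
  rw [ZMod.natCast_val, ZMod.cast_id'] at this
  simpa using this

lemma closed_univ' {S : Set (ZMod 37)} (hS : S.Nonempty) (h : ∀ x ∈ S, x - 1 ∈ S) :
    S = Set.univ := by
  have h1 : (Neg.neg ⁻¹' S : Set (ZMod 37)) = Set.univ := by
    apply closed_univ
    · obtain ⟨y, hy⟩ := hS
      exact ⟨-y, by simpa using hy⟩
    · intro x hx
      have := h _ hx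
      show -(x + 1) ∈ S
      have e : -(x + 1) = -x - 1 := by ring
      rw [e]; exact this
  ext z
  simp only [Set.mem_univ, iff_true]
  have : -z ∈ (Neg.neg ⁻¹' S : Set (ZMod 37)) := by rw [h1]; exact Set.mem_univ _
  simpa using this

/-- a set without long arcs on which equal labels mean equal outside neighbourhoods is small -/
lemma small_of {S : Set (ZMod 37)} {t : ZMod 37 → Fin 3} (hS : ¬ Arc S)
    (ht : ∀ x ∈ S, ∀ y ∈ S, t x = t y → ∀ z ∉ S, (C37.Adj x z ↔ C37.Adj y z)) : S.ncard ≤ 18 := by
  classical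
  set R : Finset (ZMod 37) := Finset.univ.filter (fun x => x ∈ S ∧ x + 1 ∉ S) with hR
  have hinj : ∀ x ∈ R, ∀ y ∈ R, t x = t y → x = y := by
    intro x hx y hy hxy
    simp only [hR, Finset.mem_filter, Finset.mem_univ, true_and] at hx hy
    by_contra hne
    have h1 : C37.Adj y (x + 1) := (ht x hx.1 y hy.1 hxy _ hx.2).1 (Or.inl rfl)
    have h2 : C37.Adj x (y + 1) := (ht x hx.1 y hy.1 hxy _ hy.2).2 (Or.inl rfl)
    rw [c37_adj] at h1 h2
    rcases h1 with h1 | h1
    · exact hne (add_right_cancel h1)
    rcases h2 with h2 | h2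
    · exact hne (add_right_cancel h2).symm
    apply ne4
    linear_combination -h1 - h2
  have hRc : R.card ≤ 3 := by
    have := Finset.card_le_card_of_injOn (s := R) (t := (Finset.univ : Finset (Fin 3))) t
      (fun _ _ => Finset.mem_univ _) (fun x hx y hy h => hinj x hx y hy h)
    simpa using this
  have hcov : S ⊆ (((R ×ˢ Finset.range 6).image (fun p : ZMod 37 × ℕ => p.1 - (p.2 : ZMod 37)) :
      Finset (ZMod 37)) : Set (ZMod 37)) := by
    intro a ha
    unfold Arc at hS
    push Not at hS
    have h1 : ∃ i : ℕ, i < 7 ∧ a + (i : ZMod 37) ∉ S := hS a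
    have hmin := Nat.find_spec h1
    have hlt : ∀ j < Nat.find h1, a + (j : ZMod 37) ∈ S := by
      intro j hj
      by_contra hcon
      exact Nat.find_min h1 hj ⟨by omega, hcon⟩
    have hpos : 0 < Nat.find h1 := by
      rcases Nat.eq_zero_or_pos (Nat.find h1) with h | h
      · rw [h] at hmin
        exact absurd (by simpa using ha) hmin.2
      · exact h
    obtain ⟨j, hj⟩ : ∃ j, Nat.find h1 = j + 1 := ⟨Nat.find h1 - 1, by omega⟩
    rw [hj] at hmin
    rw [Finset.coe_image]
    refine ⟨(a + (j : ZMod 37), j), ?_, by simp⟩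
    rw [Finset.coe_product]
    refine ⟨?_, by simp; omega⟩
    simp only [hR, Finset.coe_filter, Finset.mem_univ, true_and, Set.mem_ofPred_eq]
    refine ⟨hlt j (by omega), ?_⟩
    have := hmin.2
    rwa [Nat.cast_succ, ← add_assoc] at this
  have h1 := Set.ncard_le_ncard hcov (Finset.finite_toSet _)
  rw [Set.ncard_coe_finset] at h1
  refine h1.trans (Finset.card_image_le.trans ?_)
  rw [Finset.card_product, Finset.card_range]
  omega

/-- the main step -/
lemma no_cross {A : Set (ZMod 37)} {t : ZMod 37 → Fin 3} (hA : A ≠ Set.univ) (hcard : 7 ≤ A.ncard)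
    (ht : ∀ x ∈ A, ∀ y ∈ A, t x = t y → ∀ z ∉ A, (C37.Adj x z ↔ C37.Adj y z))
    {x : ZMod 37} (hx : x ∈ A) (hx1 : x + 1 ∈ A) (hne : t x ≠ t (x + 1))
    (hall : ∀ x' ∈ A, ∀ y' ∈ A, t x' = t x → t y' = t (x + 1) → C37.Adj x' y') : False := by
  classical
  -- classes of the two labels
  have ha : ∀ y ∈ A, t y = t x → y = x ∨ y = x + 2 := by
    intro y hy h
    rcases hall y hy (x + 1) hx1 h rfl with h' | h'
    · exact Or.inl (add_right_cancel h').symm
    · exact Or.inr (by rw [h']; ring)
  have hb : ∀ y ∈ A, t y = t (x + 1) → y = x + 1 ∨ y = x - 1 := by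
    intro y hy h
    rcases hall x hx y hy rfl h with h' | h'
    · exact Or.inl h'
    · exact Or.inr (by rw [h']; ring)
  -- the third class
  have hg : ∀ u ∈ A, t u ≠ t x → t u ≠ t (x + 1) → ∀ z, C37.Adj u z → z ∈ A := by
    intro u hu h1 h2 z huz
    by_contra hz
    set γ := A ∩ {v | t v = t u} with hγ
    have hsub : A ⊆ γ ∪ (({x, x + 2, x + 1, x - 1} : Finset (ZMod 37)) : Set (ZMod 37)) := by
      intro v hv
      by_cases h3 : t v = t u
      · exact Or.inl ⟨hv, h3⟩
      · right
        have h4 : t v = t x ∨ t v = t (x + 1) := by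
          have : ∀ a b c d : Fin 3, a ≠ b → c ≠ a → c ≠ b → d ≠ c → d = a ∨ d = b := by decide
          exact this _ _ _ _ hne h1 h2 h3
        rcases h4 with h4 | h4
        · rcases ha v hv h4 with h | h <;> simp [h]
        · rcases hb v hv h4 with h | h <;> simp [h]
    have h5 : A.ncard ≤ γ.ncard + 4 := by
      refine (Set.ncard_le_ncard hsub (Set.toFinite _)).trans ((Set.ncard_union_le _ _).trans ?_)
      rw [Set.ncard_coe_finset]
      have := Finset.card_le_four (a := x) (b := x + 2) (c := x + 1) (d := x - 1)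
      omega
    have h6 : γ ⊆ (({z + 1, z - 1} : Finset (ZMod 37)) : Set (ZMod 37)) := by
      rintro v ⟨hv, hvu⟩
      have h7 : C37.Adj v z := (ht u hu v hv (Eq.symm hvu) z hz).1 huz
      rcases h7 with h7 | h7
      · simp [h7]
      · simp [h7]
    have h7 := Set.ncard_le_ncard h6 (Finset.finite_toSet _)
    rw [Set.ncard_coe_finset] at h7
    have := Finset.card_le_two (a := z + 1) (b := z - 1)
    omega
  have hAne : A.Nonempty := ⟨x, hx⟩
  obtain ⟨y, hy, hy1⟩ : ∃ y ∈ A, y + 1 ∉ A := by
    by_contra hcon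
    push Not at hcon
    exact hA (closed_univ hAne hcon)
  obtain ⟨w, hw, hw1⟩ : ∃ w ∈ A, w - 1 ∉ A := by
    by_contra hcon
    push Not at hcon
    exact hA (closed_univ' hAne hcon)
  have hyc : (y = x + 2 ∧ t y = t x) ∨ (y = x + 1) := by
    by_cases h1 : t y = t x
    · rcases ha y hy h1 with h | h
      · rw [h] at hy1; exact absurd hx1 hy1
      · exact Or.inl ⟨h, h1⟩
    by_cases h2 : t y = t (x + 1)
    · rcases hb y hy h2 with h | h
      · exact Or.inr h
      · rw [h, sub_add_cancel] at hy1; exact absurd hx hy1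
    · exact absurd (hg y hy h1 h2 (y + 1) (Or.inl rfl)) hy1
  have hwc : (w = x - 1 ∧ t w = t (x + 1)) ∨ (w = x) := by
    by_cases h1 : t w = t x
    · rcases ha w hw h1 with h | h
      · exact Or.inr h
      · exfalso; apply hw1
        have : w - 1 = x + 1 := by rw [h]; ring
        rw [this]; exact hx1
    by_cases h2 : t w = t (x + 1)
    · rcases hb w hw h2 with h | h
      · rw [h, add_sub_cancel_right] at hw1; exact absurd hx hw1
      · exact Or.inl ⟨h, h2⟩
    · exact absurd (hg w hw h1 h2 (w - 1) (Or.inr (by ring))) hw1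
  rcases hyc with ⟨hy2, hyt⟩ | hy2
  · rcases hwc with ⟨hw2, hwt⟩ | hw2
    · rcases hall y hy w hw hyt hwt with h | h
      · apply ne4; linear_combination -h + hw2 - hy2
      · apply ne2; linear_combination h - hy2 + hw2
    · have h1 : C37.Adj y (x - 1) := (ht x hx y hy hyt.symm _ (by rw [← hw2]; exact hw1)).1
        (Or.inr (by ring))
      rcases h1 with h | h
      · apply ne4; linear_combination -h - hy2
      · apply ne2; linear_combination h - hy2
  · rcases hwc with ⟨hw2, hwt⟩ | hw2
    · have h1 : C37.Adj w (x + 1 + 1) := (ht (x + 1) hx1 w hw hwt.symm _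
        (by rw [← hy2]; exact hy1)).1 (Or.inl rfl)
      rcases h1 with h | h
      · apply ne2; linear_combination h + hw2
      · apply ne4; linear_combination -h + hw2
    · -- `x`, `x + 1` are an arc
      rw [hy2] at hy1
      rw [hw2] at hw1
      set S : Set (ZMod 37) := {v | v ∈ A ∧ v ≠ x ∧ v ≠ x + 1} with hS
      have hSne : S.Nonempty := by
        by_contra hcon
        have hsub : A ⊆ (({x, x + 1} : Finset (ZMod 37)) : Set (ZMod 37)) := by
          intro v hv
          by_contra hv2
          apply hcon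
          refine ⟨v, hv, ?_, ?_⟩
          · rintro rfl; simp at hv2
          · rintro rfl; simp at hv2
        have h7 := Set.ncard_le_ncard hsub (Finset.finite_toSet _)
        rw [Set.ncard_coe_finset] at h7
        have := Finset.card_le_two (a := x) (b := x + 1)
        omega
      have hcl : ∀ v ∈ S, v + 1 ∈ S := by
        rintro v ⟨hv, hv1, hv2⟩
        have hvA : v + 1 ∈ A := by
          apply hg v hv _ _ _ (Or.inl rfl)
          · intro h
            rcases ha v hv h with h' | h'
            · exact hv1 h'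
            · apply hy1
              have : x + 1 + 1 = v := by rw [h']; ring
              rw [this]; exact hv
          · intro h
            rcases hb v hv h with h' | h'
            · exact hv2 h'
            · apply hw1
              rw [← h']; exact hv
        refine ⟨hvA, ?_, ?_⟩
        · intro h
          apply hw1
          rw [← h, add_sub_cancel_right]; exact hv
        · intro h
          exact hv1 (add_right_cancel h)
      have := closed_univ hSne hcl
      have hxS : x ∈ S := by rw [this]; exact Set.mem_univ _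
      exact hxS.2.1 rfl

theorem c37_not : ¬ CwLE C37 3 := by
  intro h
  obtain ⟨A₁, A₂, t, b1, b2, b3, hn⟩ := node_of_cwLE h Arc ⟨0, fun _ _ => Set.mem_univ _⟩ (by
    rintro y ⟨x, hx⟩
    have h0 := hx 0 (by norm_num)
    have h1 := hx 1 (by norm_num)
    simp only [Set.mem_singleton_iff, Nat.cast_zero, Nat.cast_one, add_zero] at h0 h1
    apply ne1
    linear_combination h1 - h0)
  have hs1 : A₁.ncard ≤ 18 := by
    apply small_of (t := t) b2
    intro x hx y hy hxy z hz
    by_cases hz2 : z ∈ A₂
    · constructor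
      · intro h
        exact (hn.cross x hx z hz2 h).2 y (Or.inl hy) z (Or.inr hz2) hxy.symm rfl
      · intro h
        exact (hn.cross y hy z hz2 h).2 x (Or.inl hx) z (Or.inr hz2) hxy rfl
    · exact hn.out x (Or.inl hx) y (Or.inl hy) hxy z (by rintro (h | h); exacts [hz h, hz2 h])
  have hs2 : A₂.ncard ≤ 18 := by
    apply small_of (t := t) b3
    intro x hx y hy hxy z hz
    by_cases hz2 : z ∈ A₁
    · constructor
      · intro h
        exact ((hn.cross z hz2 x hx h.symm).2 z (Or.inl hz2) y (Or.inr hy) rfl hxy.symm).symm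
      · intro h
        exact ((hn.cross z hz2 y hy h.symm).2 z (Or.inl hz2) x (Or.inr hx) rfl hxy).symm
    · exact hn.out x (Or.inr hx) y (Or.inr hy) hxy z (by rintro (h | h); exacts [hz2 h, hz h])
  have hA : A₁ ∪ A₂ ≠ Set.univ := by
    intro h
    have h1 := Set.ncard_union_le A₁ A₂
    rw [h, Set.ncard_univ, Nat.card_zmod] at h1
    omega
  obtain ⟨x, hx⟩ := b1
  have hcard : 7 ≤ (A₁ ∪ A₂).ncard := by
    have hsub : (((Finset.range 7).image (fun i : ℕ => x + (i : ZMod 37)) : Finset (ZMod 37)) :
        Set (ZMod 37)) ⊆ A₁ ∪ A₂ := by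
      intro v hv
      rw [Finset.coe_image] at hv
      obtain ⟨i, hi, rfl⟩ := hv
      exact hx i (by simpa using hi)
    have h1 := Set.ncard_le_ncard hsub (Set.toFinite _)
    rw [Set.ncard_coe_finset, Finset.card_image_of_injOn, Finset.card_range] at h1
    · exact h1
    · intro i hi j hj hij
      simp only [Finset.coe_range, Set.mem_Iio] at hi hj
      have h2 : (i : ZMod 37) = j := add_left_cancel hij
      rw [ZMod.natCast_eq_natCast_iff'] at h2
      omega
  -- two consecutive vertices in different parts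
  have hcross : ∃ i : ℕ, i < 6 ∧ ((x + (i : ZMod 37) ∈ A₁ ∧ x + (i : ZMod 37) + 1 ∈ A₂) ∨
      (x + (i : ZMod 37) ∈ A₂ ∧ x + (i : ZMod 37) + 1 ∈ A₁)) := by
    by_contra hcon
    push Not at hcon
    have h0 := hx 0 (by norm_num)
    have step : ∀ i : ℕ, i < 6 → x + ((i + 1 : ℕ) : ZMod 37) ∈ A₁ ∪ A₂ := fun i hi =>
      hx (i + 1) (by omega)
    rcases h0 with h0 | h0
    · apply b2
      refine ⟨x, fun i => ?_⟩
      induction i with
      | zero => intro _; exact h0
      | succ i ih =>
        intro hi
        have h1 := ih (by omega)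
        have h2 := step i (by omega)
        rw [Nat.cast_succ, ← add_assoc] at h2 ⊢
        rcases h2 with h2 | h2
        · exact h2
        · exact absurd h2 ((hcon i (by omega)).1 h1)
    · apply b3
      refine ⟨x, fun i => ?_⟩
      induction i with
      | zero => intro _; exact h0
      | succ i ih =>
        intro hi
        have h1 := ih (by omega)
        have h2 := step i (by omega)
        rw [Nat.cast_succ, ← add_assoc] at h2 ⊢
        rcases h2 with h2 | h2
        · exact absurd h2 ((hcon i (by omega)).2 h1)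
        · exact h2
  obtain ⟨i, hi, h | h⟩ := hcross
  · obtain ⟨h1, h2⟩ := hn.cross _ h.1 _ h.2 (Or.inl rfl)
    exact no_cross hA hcard hn.out (Or.inl h.1) (Or.inr h.2) h1 h2
  · obtain ⟨h1, h2⟩ := hn.cross _ h.2 _ h.1 (Or.inr rfl)
    exact no_cross hA hcard hn.out (Or.inr h.1) (Or.inl h.2) h1.symm
      (fun x' hx' y' hy' e1 e2 => (h2 y' hy' x' hx' e2 e1).symm)

end Pool.Agent.KS6_18.ITM
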