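import Pool.Agent.KS6_18.ITM.Upper
import Pool.Agent.KS6_18.ITM.Cyc

/-!
The lower bounds and the optimal bound for every graph `H`.
-/

set_option autoImplicit false

namespace Pool.Agent.KS6_18.ITM

open SimpleGraph Pool.Agent.H175R2 Pool.Agent.W124.ITM

variable {W U V : Type}

theorem lt_cw [Finite V] [Nonempty V] {G : SimpleGraph V} {k : ℕ} (h : ¬ CwLE G k) :
    k < cliqueWidth G := by
  by_contra hcon
  push Not at hcon
  exact h (CwLE.mono hcon (Nat.sInf_mem (s := {k | CwLE G k}) (exists_cwLE' G)))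

theorem not_cw_zero [Nonempty V] (G : SimpleGraph V) : ¬ CwLE G 0 := by
  rintro ⟨U, G', l, -, ⟨e⟩⟩
  exact (l (e (Classical.arbitrary V))).elim0

theorem built_one' {k : ℕ} {G : SimpleGraph V} {l : V → Fin k} (h : CwBuilt k V G l) :
    k = 1 → ∀ x y, ¬ G.Adj x y := by
  induction h with
  | single i => intro hk x y h; simp at h
  | union V W G H l m _ _ h1 h2 =>
    rintro hk (x | x) (y | y) h
    · exact h1 hk x y (by simpa using h)
    · simp at h
    · simp at h
    · exact h2 hk x y (by simpa using h)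
  | join V G l i j hij _ _ =>
    intro hk
    subst hk
    exact absurd (Subsingleton.elim i j) hij
  | relabel V G l i j _ ih => exact ih

theorem not_cw_k2 : ¬ CwLE (⊤ : SimpleGraph (Fin 2)) 1 := by
  rintro ⟨U, G', l, hb, ⟨e⟩⟩
  apply built_one' hb rfl (e 0) (e 1)
  rw [e.map_adj_iff]
  simp

/-- with two labels only cographs can be built -/
theorem built_two' {k : ℕ} {G : SimpleGraph V} {l : V → Fin k} (h : CwBuilt k V G l) :
    k = 2 → ∀ a b c d, a ≠ c → a ≠ d → b ≠ d → G.Adj a b → G.Adj b c → G.Adj c d →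
      G.Adj a c ∨ G.Adj a d ∨ G.Adj b d := by
  induction h with
  | single i => intro hk a b c d _ _ _ h; simp at h
  | union V W G H l m _ _ h1 h2 =>
    rintro hk (a | a) (b | b) (c | c) (d | d) hac had hbd hab hbc hcd <;>
      first
      | (exfalso; simp at hab; done)
      | (exfalso; simp at hbc; done)
      | (exfalso; simp at hcd; done)
      | (simpa using h1 hk a b c d (by simpa using hac) (by simpa using had) (by simpa using hbd)
          (by simpa using hab) (by simpa using hbc) (by simpa using hcd))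
      | (simpa using h2 hk a b c d (by simpa using hac) (by simpa using had) (by simpa using hbd)
          (by simpa using hab) (by simpa using hbc) (by simpa using hcd))
  | join V G l i j hij _ ih =>
    intro hk
    subst hk
    intro a b c d hac had hbd hab hbc hcd
    by_contra hcon
    push Not at hcon
    obtain ⟨n1, n2, n3⟩ := hcon
    have key : ∀ x y, x ≠ y →
        ¬ (G ⊔ SimpleGraph.fromRel (fun u v => l u = i ∧ l v = j)).Adj x y → l x = l y := by
      intro x y hxy h
      rw [SimpleGraph.sup_adj, SimpleGraph.fromRel_adj] at h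
      push Not at h
      have h2 := h.2 hxy
      have : ∀ p q r s : Fin 2, p ≠ q → (r = p → ¬ s = q) → (s = p → ¬ r = q) → r = s := by decide
      exact this i j (l x) (l y) hij h2.1 h2.2
    have e1 := key a c hac n1
    have e2 := key a d had n2
    have e3 := key b d hbd n3
    have old : ∀ x y, l x = l y →
        (G ⊔ SimpleGraph.fromRel (fun u v => l u = i ∧ l v = j)).Adj x y → G.Adj x y := by
      intro x y hxy h
      rw [SimpleGraph.sup_adj, SimpleGraph.fromRel_adj] at h
      rcases h with h | ⟨_, ⟨h1, h2⟩ | ⟨h1, h2⟩⟩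
      · exact h
      · exact absurd (h1.symm.trans (hxy.trans h2)) hij
      · exact absurd (h1.symm.trans (hxy.symm.trans h2)) hij
    have hle : G ≤ G ⊔ SimpleGraph.fromRel (fun u v => l u = i ∧ l v = j) := le_sup_left
    rcases ih rfl a b c d hac had hbd (old a b (e2.trans e3.symm) hab)
      (old b c ((e3.trans e2.symm).trans e1) hbc) (old c d (e1.symm.trans e2) hcd) with h | h | h
    · exact n1 (hle h)
    · exact n2 (hle h)
    · exact n3 (hle h)
  | relabel V G l i j _ ih => exact ih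

theorem not_cw_p4 : ¬ CwLE P4 2 := by
  rintro ⟨U, G', l, hb, ⟨e⟩⟩
  have h := built_two' hb rfl (e 0) (e 1) (e 2) (e 3) (by simp) (by simp) (by simp)
  simp only [e.map_adj_iff, tgt0] at h
  have := h (by decide) (by decide) (by decide)
  revert this
  decide

/-! ### properties inherited by induced topological minors -/

theorem d2_itm {H : SimpleGraph W} {G : SimpleGraph V} (h : IsITM H G) (hG : D2 G) : D2 H := by
  refine of_itm (fun _ G => D2 G) ?_ ?_ h hG
  · rintro W V H G ⟨φ⟩ hG x a b c ha hb hc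
    rcases hG (φ x) (φ a) (φ b) (φ c) (φ.map_adj_iff.2 ha) (φ.map_adj_iff.2 hb)
      (φ.map_adj_iff.2 hc) with h | h | h
    · exact Or.inl (φ.injective h)
    · exact Or.inr (Or.inl (φ.injective h))
    · exact Or.inr (Or.inr (φ.injective h))
  · intro W H u v _ hG x a b c ha hb hc
    rcases hG (some x) _ _ _ (nbr_adj (u := u) (v := v) ha) (nbr_adj (u := u) (v := v) hb)
      (nbr_adj (u := u) (v := v) hc) with h | h | h
    · exact Or.inl (nbr_inj h)
    · exact Or.inr (Or.inl (nbr_inj h))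
    · exact Or.inr (Or.inr (nbr_inj h))

theorem d2_c37 : D2 C37 := by
  intro x a b c ha hb hc
  rw [c37_adj] at ha hb hc
  have e : ∀ {y : ZMod 37}, (y = x + 1 ∨ x = y + 1) → y = x + 1 ∨ y = x - 1 := by
    rintro y (h | h)
    · exact Or.inl h
    · exact Or.inr (by rw [h]; ring)
  rcases e ha with h1 | h1 <;> rcases e hb with h2 | h2 <;> rcases e hc with h3 | h3 <;>
    simp [h1, h2, h3]

/-- no set of vertices of minimum degree two -/
def Forest (V : Type) (G : SimpleGraph V) : Prop :=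
  ∀ S : Set V, (∀ x ∈ S, ∃ a ∈ S, ∃ b ∈ S, a ≠ b ∧ G.Adj x a ∧ G.Adj x b) → S = ∅

theorem forest_itm {H : SimpleGraph W} {G : SimpleGraph V} (h : IsITM H G) (hG : Forest V G) :
    Forest W H := by
  refine of_itm Forest ?_ ?_ h hG
  · rintro W V H G ⟨φ⟩ hG S hS
    have := hG (φ '' S) (by
      rintro _ ⟨x, hx, rfl⟩
      obtain ⟨a, ha, b, hb, hab, h1, h2⟩ := hS x hx
      exact ⟨φ a, ⟨a, ha, rfl⟩, φ b, ⟨b, hb, rfl⟩, φ.injective.ne hab, φ.map_adj_iff.2 h1,
        φ.map_adj_iff.2 h2⟩)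
    exact Set.image_eq_empty.1 this
  · intro W H u v huv hG S hS
    have := hG ({y | y = none ∧ u ∈ S ∧ v ∈ S} ∪ some '' S) (by
      have hn : ∀ x ∈ S, ∀ a ∈ S, nbr u v x a ∈ ({y | y = none ∧ u ∈ S ∧ v ∈ S} ∪ some '' S) := by
        intro x hx a ha
        unfold nbr
        split_ifs with h
        · left
          refine ⟨rfl, ?_⟩
          rw [Sym2.eq_iff] at h
          rcases h with ⟨rfl, rfl⟩ | ⟨rfl, rfl⟩
          · exact ⟨hx, ha⟩
          · exact ⟨ha, hx⟩
        · exact Or.inr ⟨a, ha, rfl⟩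
      rintro x (⟨rfl, hu, hv⟩ | ⟨x, hx, rfl⟩)
      · refine ⟨some u, Or.inr ⟨u, hu, rfl⟩, some v, Or.inr ⟨v, hv, rfl⟩, ?_, ?_, ?_⟩
        · intro h; exact huv.ne (Option.some_injective _ h)
        · rw [sub_none_some]; exact Or.inl rfl
        · rw [sub_none_some]; exact Or.inr rfl
      · obtain ⟨a, ha, b, hb, hab, h1, h2⟩ := hS x hx
        exact ⟨_, hn x hx a ha, _, hn x hx b hb, fun h => hab (nbr_inj h), nbr_adj h1, nbr_adj h2⟩)
    rw [Set.union_empty_iff] at this
    exact Set.image_eq_empty.1 this.2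

theorem forest_p4 : Forest (Fin 4) P4 := by
  intro S hS
  by_contra hne
  obtain ⟨x, hx, hmin⟩ := Set.exists_min_image S (fun y : Fin 4 => y.val) (Set.toFinite _)
    (Set.nonempty_iff_ne_empty.2 hne)
  obtain ⟨a, ha, b, hb, hab, h1, h2⟩ := hS x hx
  have ha' := hmin a ha
  have hb' := hmin b hb
  have e : ∀ y : Fin 4, P4.Adj x y → x.val ≤ y.val → y.val = x.val + 1 := by
    intro y hy hle
    unfold P4 at hy
    rw [SimpleGraph.fromRel_adj] at hy
    omega
  apply hab
  apply Fin.ext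
  rw [e a h1 ha', e b h2 hb']

/-- complete graphs are induced topological minors only of ... -/
theorem ind_of_itm_top {m : ℕ} {H : SimpleGraph W} (h : IsITM H (⊤ : SimpleGraph (Fin m))) :
    H.IsIndContained (⊤ : SimpleGraph (Fin m)) := by
  refine of_itm (fun _ G => G.IsIndContained (⊤ : SimpleGraph (Fin m))) ?_ ?_ h
    ⟨SimpleGraph.Embedding.refl⟩
  · rintro W V H G ⟨φ⟩ ⟨ψ⟩
    exact ⟨ψ.comp φ⟩
  · rintro W H u v huv ⟨φ⟩
    exfalso
    have h1 : ¬ (subdivideEdge H u v).Adj (some u) (some v) := by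
      rw [sub_some_some]
      simp
    apply h1
    rw [← φ.map_adj_iff, SimpleGraph.top_adj]
    exact φ.injective.ne (fun h => huv.ne (Option.some_injective _ h))

/-! ### small induced subgraphs -/

lemma emb_table {n m : ℕ} {H : SimpleGraph W} {S : SimpleGraph (Fin n)} (T : SimpleGraph (Fin m))
    (φ : H ↪g S) (t : Fin n) (ht : ∀ w, φ w ≠ t) (f : Fin n → Fin m)
    (hf : ∀ x y, x ≠ t → y ≠ t → (f x = f y → x = y) ∧ (T.Adj (f x) (f y) ↔ S.Adj x y)) :
    H.IsIndContained T := by
  refine ⟨⟨⟨fun w => f (φ w), fun a b h => φ.injective ((hf _ _ (ht a) (ht b)).1 h)⟩, ?_⟩⟩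
  intro a b
  show T.Adj (f (φ a)) (f (φ b)) ↔ H.Adj a b
  rw [(hf _ _ (ht a) (ht b)).2, φ.map_adj_iff]

theorem paw_cases {H : SimpleGraph W} (h : H.IsIndContained paw) :
    (H.IsIndContained P4 ∨ H.IsIndContained (⊤ : SimpleGraph (Fin 3))) ∨ ¬ D2 H := by
  obtain ⟨φ⟩ := h
  by_cases hs : ∀ t, ∃ w, φ w = t
  · right
    intro hD
    obtain ⟨w0, h0⟩ := hs 0
    obtain ⟨w1, h1⟩ := hs 1
    obtain ⟨w2, h2⟩ := hs 2
    obtain ⟨w3, h3⟩ := hs 3
    have a1 : H.Adj w0 w1 := by rw [← φ.map_adj_iff, h0, h1, tgt1]; decide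
    have a2 : H.Adj w0 w2 := by rw [← φ.map_adj_iff, h0, h2, tgt1]; decide
    have a3 : H.Adj w0 w3 := by rw [← φ.map_adj_iff, h0, h3, tgt1]; decide
    rcases hD w0 w1 w2 w3 a1 a2 a3 with h | h | h
    · rw [← h, h1] at h2; exact absurd h2 (by decide)
    · rw [← h, h1] at h3; exact absurd h3 (by decide)
    · rw [← h, h2] at h3; exact absurd h3 (by decide)
  · push Not at hs
    obtain ⟨t, ht⟩ := hs
    left
    fin_cases t
    · left
      refine emb_table P4 φ _ ht ![0, 0, 1, 3] ?_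
      simp only [tgt0, tgt1]; decide
    · left
      refine emb_table P4 φ _ ht ![1, 0, 0, 2] ?_
      simp only [tgt0, tgt1]; decide
    · left
      refine emb_table P4 φ _ ht ![1, 0, 0, 2] ?_
      simp only [tgt0, tgt1]; decide
    · right
      refine emb_table ⊤ φ _ ht ![0, 1, 2, 0] ?_
      simp only [SimpleGraph.top_adj, tgt1]; decide

theorem diamond_cases {H : SimpleGraph W} (h : H.IsIndContained diamond) :
    (H.IsIndContained P4 ∨ H.IsIndContained (⊤ : SimpleGraph (Fin 3))) ∨ ¬ D2 H := by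
  obtain ⟨φ⟩ := h
  by_cases hs : ∀ t, ∃ w, φ w = t
  · right
    intro hD
    obtain ⟨w0, h0⟩ := hs 0
    obtain ⟨w1, h1⟩ := hs 1
    obtain ⟨w2, h2⟩ := hs 2
    obtain ⟨w3, h3⟩ := hs 3
    have a1 : H.Adj w0 w1 := by rw [← φ.map_adj_iff, h0, h1, tgt2]; decide
    have a2 : H.Adj w0 w2 := by rw [← φ.map_adj_iff, h0, h2, tgt2]; decide
    have a3 : H.Adj w0 w3 := by rw [← φ.map_adj_iff, h0, h3, tgt2]; decide
    rcases hD w0 w1 w2 w3 a1 a2 a3 with h | h | h
    · rw [← h, h1] at h2; exact absurd h2 (by decide)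
    · rw [← h, h1] at h3; exact absurd h3 (by decide)
    · rw [← h, h2] at h3; exact absurd h3 (by decide)
  · push Not at hs
    obtain ⟨t, ht⟩ := hs
    left
    fin_cases t
    · left
      refine emb_table P4 φ _ ht ![0, 1, 0, 2] ?_
      simp only [tgt0, tgt2]; decide
    · left
      refine emb_table P4 φ _ ht ![1, 0, 0, 2] ?_
      simp only [tgt0, tgt2]; decide
    · right
      refine emb_table ⊤ φ _ ht ![0, 1, 0, 2] ?_
      simp only [SimpleGraph.top_adj, tgt2]; decide
    · right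
      refine emb_table ⊤ φ _ ht ![0, 1, 2, 0] ?_
      simp only [SimpleGraph.top_adj, tgt2]; decide

theorem k3_cases {H : SimpleGraph W} (h : H.IsIndContained (⊤ : SimpleGraph (Fin 3))) :
    H.IsIndContained (⊤ : SimpleGraph (Fin 2)) ∨ ¬ Forest W H := by
  obtain ⟨φ⟩ := h
  by_cases hs : ∀ t, ∃ w, φ w = t
  · right
    intro hD
    obtain ⟨w0, h0⟩ := hs 0
    have := hD Set.univ (by
      intro x _
      obtain ⟨p, q, h1, h2, h3⟩ : ∃ p q : Fin 3, p ≠ q ∧ φ x ≠ p ∧ φ x ≠ q := by
        generalize φ x = r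
        revert r; decide
      obtain ⟨a, rfl⟩ := hs p
      obtain ⟨b, rfl⟩ := hs q
      exact ⟨a, Set.mem_univ _, b, Set.mem_univ _, fun h => h1 (by rw [h]),
        by rw [← φ.map_adj_iff]; exact h2, by rw [← φ.map_adj_iff]; exact h3⟩)
    have h1 : w0 ∈ (Set.univ : Set W) := Set.mem_univ _
    rw [this] at h1
    exact h1
  · push Not at hs
    obtain ⟨t, ht⟩ := hs
    left
    fin_cases t
    · refine emb_table ⊤ φ _ ht ![0, 0, 1] ?_
      simp only [SimpleGraph.top_adj]; decide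
    · refine emb_table ⊤ φ _ ht ![0, 0, 1] ?_
      simp only [SimpleGraph.top_adj]; decide
    · refine emb_table ⊤ φ _ ht ![0, 1, 0] ?_
      simp only [SimpleGraph.top_adj]; decide

theorem k2_p4 : (⊤ : SimpleGraph (Fin 2)).IsIndContained P4 := by
  refine ⟨⟨⟨![0, 1], by decide⟩, ?_⟩⟩
  intro a b
  show P4.Adj (![0, 1] a) (![0, 1] b) ↔ _
  rw [tgt0, SimpleGraph.top_adj]
  revert a b; decide

/-! ### the optimal bounds -/

/-- all (finite) graphs without `H` as an induced topological minor have clique-width at most `c` -/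
def Bnd (H : SimpleGraph W) (c : ℕ) : Prop :=
  ∀ (V : Type) [Finite V] (G : SimpleGraph V), ¬ IsITM H G → cliqueWidth G ≤ c

theorem Bnd.mono {H : SimpleGraph W} {c d : ℕ} (hcd : c ≤ d) (h : Bnd H c) : Bnd H d :=
  fun V _ G hG => (h V G hG).trans hcd

theorem Bnd.of_ind {H : SimpleGraph W} {F : SimpleGraph U} {c : ℕ} (hF : Bnd F c)
    (h : H.IsIndContained F) : Bnd H c :=
  fun V _ G hG => hF V G fun h' => hG (IsITM.mono_left h' h)

theorem optimal [Finite W] (H : SimpleGraph W) (c : ℕ) :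
    Bnd H c ↔
      H.IsIndContained (⊤ : SimpleGraph (Fin 1)) ∨
      (1 ≤ c ∧ H.IsIndContained (⊤ : SimpleGraph (Fin 2))) ∨
      (2 ≤ c ∧ H.IsIndContained P4) ∨
      (3 ≤ c ∧ H.IsIndContained (⊤ : SimpleGraph (Fin 3))) ∨
      (4 ≤ c ∧ (H.IsIndContained paw ∨ H.IsIndContained diamond)) := by
  constructor
  · intro h
    have hcl := (classification H).1 ⟨c, h⟩
    by_cases c4 : 4 ≤ c
    · rcases hcl with h1 | h1 | h1
      · exact Or.inr (Or.inr (Or.inl ⟨by omega, h1⟩))
      · exact Or.inr (Or.inr (Or.inr (Or.inr ⟨c4, Or.inl h1⟩)))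
      · exact Or.inr (Or.inr (Or.inr (Or.inr ⟨c4, Or.inr h1⟩)))
    -- `c ≤ 3`
    have h3 : H.IsIndContained P4 ∨ H.IsIndContained (⊤ : SimpleGraph (Fin 3)) := by
      have hD : D2 H := by
        by_contra hD
        have h1 := h (ZMod 37) C37 (fun h' => hD (d2_itm h' d2_c37))
        have h2 := lt_cw c37_not
        omega
      rcases hcl with h1 | h1 | h1
      · exact Or.inl h1
      · exact (paw_cases h1).resolve_right (not_not.2 hD)
      · exact (diamond_cases h1).resolve_right (not_not.2 hD)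
    by_cases c3 : 3 ≤ c
    · rcases h3 with h3 | h3
      · exact Or.inr (Or.inr (Or.inl ⟨by omega, h3⟩))
      · exact Or.inr (Or.inr (Or.inr (Or.inl ⟨c3, h3⟩)))
    -- `c ≤ 2`
    have h2 : H.IsIndContained P4 := by
      rcases h3 with h3 | h3
      · exact h3
      · have hF : Forest W H := by
          by_contra hF
          have h1 := h (Fin 4) P4 (fun h' => hF (forest_itm h' forest_p4))
          have h2 := lt_cw not_cw_p4
          omega
        exact ((k3_cases h3).resolve_right (not_not.2 hF)).trans k2_p4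
    by_cases c2 : 2 ≤ c
    · exact Or.inr (Or.inr (Or.inl ⟨c2, h2⟩))
    have h1 : H.IsIndContained (⊤ : SimpleGraph (Fin 2)) := by
      by_contra hcon
      have h1 := h (Fin 2) ⊤ (fun h' => hcon (ind_of_itm_top h'))
      have h2 := lt_cw not_cw_k2
      omega
    by_cases c1 : 1 ≤ c
    · exact Or.inr (Or.inl ⟨c1, h1⟩)
    left
    by_contra hcon
    have h1 := h (Fin 1) ⊤ (fun h' => hcon (ind_of_itm_top h'))
    have h2 := lt_cw (not_cw_zero (⊤ : SimpleGraph (Fin 1)))
    omega
  · rintro (h | ⟨hc, h⟩ | ⟨hc, h⟩ | ⟨hc, h⟩ | ⟨hc, h | h⟩)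
    · exact Bnd.mono (Nat.zero_le c) (Bnd.of_ind (fun V _ G hG => cw_k1 G hG) h)
    · exact Bnd.mono hc (Bnd.of_ind (fun V _ G hG => cw_k2 G hG) h)
    · exact Bnd.mono hc (Bnd.of_ind (fun V _ G hG => cw_p4 G hG) h)
    · exact Bnd.mono hc (Bnd.of_ind (fun V _ G hG => cw_k3 G hG) h)
    · exact Bnd.mono hc (Bnd.of_ind (fun V _ G hG => cw_paw G hG) h)
    · exact Bnd.mono hc (Bnd.of_ind (fun V _ G hG => cw_diamond G hG) h)

end Pool.Agent.KS6_18.ITM
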