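import Pool.Graph.R_seed8.H175R2.Cut

/-!
Nodes of clique-width expressions: the vertex set at a union node, its two parts and the labels.
-/

set_option autoImplicit false

namespace Pool.Agent.KS6_18.ITM

open SimpleGraph Pool.Agent.H175R2

/-- monotonicity in the number of labels -/
theorem cwBuilt_mono {k m : ℕ} (hkm : k ≤ m) {V : Type} {G : SimpleGraph V} {l : V → Fin k}
    (h : CwBuilt k V G l) : CwBuilt m V G (fun x => Fin.castLE hkm (l x)) := by
  have hinj : Function.Injective (Fin.castLE hkm) := Fin.castLE_injective hkm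
  induction h with
  | single i => exact CwBuilt.single _
  | union V W G H l m' _ _ h1 h2 =>
    have := CwBuilt.union _ _ _ _ _ _ h1 h2
    have e : (fun x => Fin.castLE hkm (Sum.elim l m' x))
        = Sum.elim (fun x => Fin.castLE hkm (l x)) (fun x => Fin.castLE hkm (m' x)) := by
      funext x; rcases x with x | x <;> rfl
    rw [e]; exact this
  | join V G l i j hij _ ih =>
    have := CwBuilt.join _ _ _ (Fin.castLE hkm i) (Fin.castLE hkm j) (hinj.ne hij) ih
    have e : (SimpleGraph.fromRel (fun u v => l u = i ∧ l v = j))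
        = SimpleGraph.fromRel (fun u v => Fin.castLE hkm (l u) = Fin.castLE hkm i ∧
          Fin.castLE hkm (l v) = Fin.castLE hkm j) := by
      congr 1
      funext u v
      rw [hinj.eq_iff, hinj.eq_iff]
    rw [e]; exact this
  | relabel V G l i j _ ih =>
    have := CwBuilt.relabel _ _ _ (Fin.castLE hkm i) (Fin.castLE hkm j) ih
    have e : (fun x => Fin.castLE hkm (if l x = i then j else l x))
        = fun v => if Fin.castLE hkm (l v) = Fin.castLE hkm i then Fin.castLE hkm j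
          else Fin.castLE hkm (l v) := by
      funext x
      by_cases hx : l x = i
      · rw [if_pos hx, if_pos (by rw [hx])]
      · rw [if_neg hx, if_neg (fun h => hx (hinj h))]
    rw [e]; exact this

theorem CwLE.mono {V : Type} {G : SimpleGraph V} {k m : ℕ} (hkm : k ≤ m) (h : CwLE G k) :
    CwLE G m := by
  obtain ⟨W, G', l, hb, e⟩ := h
  exact ⟨W, G', _, cwBuilt_mono hkm hb, e⟩

/-- a node: the vertex sets `A₁`, `A₂` united at the node with the labels `t`, in the graph `H` with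
the labels `l` built later -/
structure Node {k : ℕ} {U : Type} (H : SimpleGraph U) (A₁ A₂ : Set U) (t : U → Fin k) : Prop where
  disj : Disjoint A₁ A₂
  out : ∀ x ∈ A₁ ∪ A₂, ∀ y ∈ A₁ ∪ A₂, t x = t y → ∀ z ∉ A₁ ∪ A₂, (H.Adj x z ↔ H.Adj y z)
  cross : ∀ x ∈ A₁, ∀ y ∈ A₂, H.Adj x y → t x ≠ t y ∧
    ∀ x' ∈ A₁ ∪ A₂, ∀ y' ∈ A₁ ∪ A₂, t x' = t x → t y' = t y → H.Adj x' y'

theorem node_exists {k : ℕ} {U : Type} {H : SimpleGraph U} {l : U → Fin k}
    (h : CwBuilt k U H l) : ∀ Big : Set U → Prop, Big Set.univ → (∀ x, ¬ Big {x}) →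
      ∃ A₁ A₂ : Set U, ∃ t : U → Fin k, Big (A₁ ∪ A₂) ∧ ¬ Big A₁ ∧ ¬ Big A₂ ∧ Node H A₁ A₂ t ∧
        ∀ x ∈ A₁ ∪ A₂, ∀ y ∈ A₁ ∪ A₂, t x = t y → l x = l y := by
  induction h with
  | single i =>
    intro Big h1 h0
    exfalso
    apply h0 ()
    have : ({()} : Set Unit) = Set.univ := by ext x; simp
    rw [this]; exact h1
  | union V W G H l m hG hH ih1 ih2 =>
    intro Big h1 h0
    by_cases c1 : Big (Sum.inl '' Set.univ)
    · obtain ⟨A₁, A₂, t, b1, b2, b3, hn, hl⟩ := ih1 (fun S => Big (Sum.inl '' S)) c1 (fun x => by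
        simpa using h0 (Sum.inl x))
      refine ⟨Sum.inl '' A₁, Sum.inl '' A₂, Sum.elim t m, ?_, b2, b3, ⟨?_, ?_, ?_⟩, ?_⟩
      · rw [← Set.image_union]; exact b1
      · exact Set.disjoint_image_of_injective Sum.inl_injective hn.disj
      · rw [← Set.image_union]
        rintro _ ⟨x, hx, rfl⟩ _ ⟨y, hy, rfl⟩ hxy
        rintro (z | z) hz
        · have : z ∉ A₁ ∪ A₂ := fun h => hz ⟨z, h, rfl⟩
          simpa using hn.out x hx y hy (by simpa using hxy) z this
        · simp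
      · rw [← Set.image_union]
        rintro _ ⟨x, hx, rfl⟩ _ ⟨y, hy, rfl⟩ hxy
        obtain ⟨h3, h4⟩ := hn.cross x hx y hy (by simpa using hxy)
        refine ⟨by simpa using h3, ?_⟩
        rintro _ ⟨x', hx', rfl⟩ _ ⟨y', hy', rfl⟩ e1 e2
        simpa using h4 x' hx' y' hy' (by simpa using e1) (by simpa using e2)
      · rw [← Set.image_union]
        rintro _ ⟨x, hx, rfl⟩ _ ⟨y, hy, rfl⟩ hxy
        simpa using hl x hx y hy (by simpa using hxy)
    by_cases c2 : Big (Sum.inr '' Set.univ)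
    · obtain ⟨A₁, A₂, t, b1, b2, b3, hn, hl⟩ := ih2 (fun S => Big (Sum.inr '' S)) c2 (fun x => by
        simpa using h0 (Sum.inr x))
      refine ⟨Sum.inr '' A₁, Sum.inr '' A₂, Sum.elim l t, ?_, b2, b3, ⟨?_, ?_, ?_⟩, ?_⟩
      · rw [← Set.image_union]; exact b1
      · exact Set.disjoint_image_of_injective Sum.inr_injective hn.disj
      · rw [← Set.image_union]
        rintro _ ⟨x, hx, rfl⟩ _ ⟨y, hy, rfl⟩ hxy
        rintro (z | z) hz
        · simp
        · have : z ∉ A₁ ∪ A₂ := fun h => hz ⟨z, h, rfl⟩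
          simpa using hn.out x hx y hy (by simpa using hxy) z this
      · rw [← Set.image_union]
        rintro _ ⟨x, hx, rfl⟩ _ ⟨y, hy, rfl⟩ hxy
        obtain ⟨h3, h4⟩ := hn.cross x hx y hy (by simpa using hxy)
        refine ⟨by simpa using h3, ?_⟩
        rintro _ ⟨x', hx', rfl⟩ _ ⟨y', hy', rfl⟩ e1 e2
        simpa using h4 x' hx' y' hy' (by simpa using e1) (by simpa using e2)
      · rw [← Set.image_union]
        rintro _ ⟨x, hx, rfl⟩ _ ⟨y, hy, rfl⟩ hxy
        simpa using hl x hx y hy (by simpa using hxy)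
    · have hu : (Sum.inl '' Set.univ ∪ Sum.inr '' Set.univ : Set (V ⊕ W)) = Set.univ := by
        ext x; rcases x with x | x <;> simp
      refine ⟨Sum.inl '' Set.univ, Sum.inr '' Set.univ, Sum.elim l m, by rw [hu]; exact h1, c1, c2,
        ⟨?_, ?_, ?_⟩, fun _ _ _ _ h => h⟩
      · rw [Set.disjoint_left]
        rintro _ ⟨x, _, rfl⟩ ⟨y, _, h⟩
        exact absurd h (by simp)
      · rw [hu]
        intro x _ y _ _ z hz
        exact absurd (Set.mem_univ z) hz
      · rintro _ ⟨x, _, rfl⟩ _ ⟨y, _, rfl⟩ hxy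
        simp at hxy
  | join V G l i j hij hG ih =>
    intro Big h1 h0
    obtain ⟨A₁, A₂, t, b1, b2, b3, hn, hl⟩ := ih Big h1 h0
    refine ⟨A₁, A₂, t, b1, b2, b3, ⟨hn.disj, ?_, ?_⟩, hl⟩
    · intro x hx y hy hxy z hz
      have hxz : x ≠ z := fun h => hz (h ▸ hx)
      have hyz : y ≠ z := fun h => hz (h ▸ hy)
      simp only [SimpleGraph.sup_adj, SimpleGraph.fromRel_adj, hn.out x hx y hy hxy z hz, ne_eq, hxz,
        hyz, hl x hx y hy hxy]
    · intro x hx y hy hxy
      have hxU : x ∈ A₁ ∪ A₂ := Or.inl hx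
      have hyU : y ∈ A₁ ∪ A₂ := Or.inr hy
      rw [SimpleGraph.sup_adj, SimpleGraph.fromRel_adj] at hxy
      rcases hxy with h | ⟨hne, h⟩
      · obtain ⟨h3, h4⟩ := hn.cross x hx y hy h
        exact ⟨h3, fun x' hx' y' hy' e1 e2 => Or.inl (h4 x' hx' y' hy' e1 e2)⟩
      · have hlne : l x ≠ l y := by
          rcases h with ⟨h, h'⟩ | ⟨h, h'⟩
          · rw [h, h']; exact hij
          · rw [h, h']; exact hij.symm
        refine ⟨fun e => hlne (hl x hxU y hyU e), fun x' hx' y' hy' e1 e2 => Or.inr ?_⟩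
        rw [SimpleGraph.fromRel_adj]
        rw [← hl x' hx' x hxU e1, ← hl y' hy' y hyU e2] at h
        refine ⟨?_, h⟩
        rintro rfl
        apply hlne
        rw [← hl x' hx' x hxU e1, ← hl x' hy' y hyU e2]
  | relabel V G l i j hG ih =>
    intro Big h1 h0
    obtain ⟨A₁, A₂, t, b1, b2, b3, hn, hl⟩ := ih Big h1 h0
    refine ⟨A₁, A₂, t, b1, b2, b3, hn, fun x hx y hy hxy => ?_⟩
    simp only [hl x hx y hy hxy]

theorem node_of_cwLE {k : ℕ} {V : Type} {G : SimpleGraph V} (h : CwLE G k) (Big : Set V → Prop)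
    (h1 : Big Set.univ) (h0 : ∀ x, ¬ Big {x}) :
    ∃ A₁ A₂ : Set V, ∃ t : V → Fin k, Big (A₁ ∪ A₂) ∧ ¬ Big A₁ ∧ ¬ Big A₂ ∧ Node G A₁ A₂ t := by
  obtain ⟨U, G', l, hb, ⟨e⟩⟩ := h
  obtain ⟨A₁, A₂, t, b1, b2, b3, hn, -⟩ := node_exists hb (fun S => Big (e ⁻¹' S))
    (by simpa using h1) (fun x => by
      have : e ⁻¹' {x} = {e.symm x} := by
        ext y
        simp only [Set.mem_preimage, Set.mem_singleton_iff]
        constructor
        · rintro rfl; simp
        · rintro rfl; simp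
      rw [this]; exact h0 _)
  refine ⟨e ⁻¹' A₁, e ⁻¹' A₂, fun x => t (e x), ?_, b2, b3, ⟨?_, ?_, ?_⟩⟩
  · rw [← Set.preimage_union]; exact b1
  · exact hn.disj.preimage e
  · intro x hx y hy hxy z hz
    have := hn.out (e x) hx (e y) hy hxy (e z) hz
    rwa [e.map_adj_iff, e.map_adj_iff] at this
  · intro x hx y hy hxy
    obtain ⟨h3, h4⟩ := hn.cross (e x) hx (e y) hy (e.map_adj_iff.2 hxy)
    refine ⟨h3, fun x' hx' y' hy' e1 e2 => ?_⟩
    exact e.map_adj_iff.1 (h4 (e x') hx' (e y') hy' e1 e2)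

end Pool.Agent.KS6_18.ITM
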