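import Pool.Graph.R_pool_sql_team_seeded_f72693b1.W124.ITM.Final

/-!
Constructions with a reserved (dead) label `0`: substitution, unions, and the translation to
clique-width expressions.
-/

set_option autoImplicit false

namespace Pool.Agent.KS6_18.ITM

open SimpleGraph Pool.Agent.H175R2 Finset Classical

variable {V : Type} {k : ℕ} {G : SimpleGraph V}

/-- the graph `G` restricted to `A`, labelled by `l`, can be built with the labels `0, …, k`,
never joining or relabelling the label `0` -/
inductive Q (k : ℕ) (G : SimpleGraph V) : Finset V → (V → Fin (k + 1)) → Prop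
  | single (x : V) (l : V → Fin (k + 1)) : Q k G {x} l
  | union {A B : Finset V} {l : V → Fin (k + 1)} (P : Finset (Fin (k + 1) × Fin (k + 1)))
      (hd : Disjoint A B) (hP : ∀ p ∈ P, p.1 ≠ p.2 ∧ p.1 ≠ 0 ∧ p.2 ≠ 0)
      (h1 : ∀ x ∈ A ∪ B, ∀ y ∈ A ∪ B, (l x, l y) ∈ P → G.Adj x y)
      (h2 : ∀ x ∈ A, ∀ y ∈ B, G.Adj x y → (l x, l y) ∈ P ∨ (l y, l x) ∈ P)
      (hA : Q k G A l) (hB : Q k G B l) : Q k G (A ∪ B) l
  | relabel {A : Finset V} {l m : V → Fin (k + 1)} (i j : Fin (k + 1)) (hi : i ≠ 0)
      (hm : ∀ x ∈ A, m x = if l x = i then j else l x) (h : Q k G A l) : Q k G A m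

lemma Q.congr {A : Finset V} {l l' : V → Fin (k + 1)} (h : Q k G A l) (hl : ∀ x ∈ A, l x = l' x) :
    Q k G A l' := by
  induction h generalizing l' with
  | single x l => exact Q.single x l'
  | @union A B l P hd hP h1 h2 _ _ iA iB =>
    refine Q.union P hd hP ?_ ?_ (iA fun x hx => hl x (mem_union_left _ hx))
      (iB fun x hx => hl x (mem_union_right _ hx))
    · intro x hx y hy h
      rw [← hl x hx, ← hl y hy] at h
      exact h1 x hx y hy h
    · intro x hx y hy h
      rw [← hl x (mem_union_left _ hx), ← hl y (mem_union_right _ hy)]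
      exact h2 x hx y hy h
  | relabel i j hi hm h _ =>
    refine Q.relabel i j hi (fun x hx => ?_) h
    rw [← hl x hx, hm x hx]

/-- disjoint union of two labelled graphs with different labellings and joins -/
lemma Q.union' {A B : Finset V} {l m n : V → Fin (k + 1)}
    (P : Finset (Fin (k + 1) × Fin (k + 1))) (hd : Disjoint A B)
    (hP : ∀ p ∈ P, p.1 ≠ p.2 ∧ p.1 ≠ 0 ∧ p.2 ≠ 0)
    (hA : Q k G A l) (hB : Q k G B m) (hl : ∀ x ∈ A, l x = n x) (hm : ∀ x ∈ B, m x = n x)
    (h1 : ∀ x ∈ A ∪ B, ∀ y ∈ A ∪ B, (n x, n y) ∈ P → G.Adj x y)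
    (h2 : ∀ x ∈ A, ∀ y ∈ B, G.Adj x y → (n x, n y) ∈ P ∨ (n y, n x) ∈ P) : Q k G (A ∪ B) n :=
  Q.union P hd hP h1 h2 (hA.congr hl) (hB.congr hm)

lemma Q.nonempty {A : Finset V} {l : V → Fin (k + 1)} (h : Q k G A l) : A.Nonempty := by
  induction h with
  | single x l => exact ⟨x, by simp⟩
  | union _ _ _ _ _ _ _ iA _ => exact iA.mono subset_union_left
  | relabel _ _ _ _ _ ih => exact ih

/-- the labels can be thrown away -/
lemma Q.toGB {A : Finset V} {l : V → Fin (k + 1)} (h : Q k G A l) : GB (k + 1) G A l := by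
  induction h with
  | single x l => exact GB.single x l
  | @union A B l P hd hP h1 h2 _ _ iA iB =>
    let H : SimpleGraph V :=
      SimpleGraph.fromRel (fun x y => G.Adj x y ∧ ((x ∈ A ∧ y ∈ A) ∨ (x ∈ B ∧ y ∈ B)))
    have hH : ∀ x y, H.Adj x y ↔ G.Adj x y ∧ ((x ∈ A ∧ y ∈ A) ∨ (x ∈ B ∧ y ∈ B)) := by
      intro x y
      simp only [H, SimpleGraph.fromRel_adj]
      constructor
      · rintro ⟨-, ⟨h, h'⟩ | ⟨h, h'⟩⟩
        · exact ⟨h, h'⟩
        · exact ⟨h.symm, by tauto⟩
      · rintro ⟨h, h'⟩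
        exact ⟨h.ne, Or.inl ⟨h, h'⟩⟩
    have gA : GB (k + 1) H A l := iA.congr (fun x hx y hy => by
      rw [hH]; exact ⟨fun h => ⟨h, Or.inl ⟨hx, hy⟩⟩, fun h => h.1⟩) fun _ _ => rfl
    have gB : GB (k + 1) H B l := iB.congr (fun x hx y hy => by
      rw [hH]; exact ⟨fun h => ⟨h, Or.inr ⟨hx, hy⟩⟩, fun h => h.1⟩) fun _ _ => rfl
    have gU := (GB.union hd (fun x hx y hy h => by
      rw [hH] at h
      rcases h.2 with ⟨_, h⟩ | ⟨h, _⟩
      · exact (Finset.disjoint_left.1 hd) h hy
      · exact (Finset.disjoint_left.1 hd) hx h) gA gB).joinMany P (fun p hp => (hP p hp).1)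
    refine gU.congr (fun x hx y hy => ?_) fun _ _ => rfl
    rw [SimpleGraph.sup_adj, hH, SimpleGraph.fromRel_adj]
    constructor
    · rintro (h | ⟨_, h | h⟩)
      · exact h.1
      · exact h1 x hx y hy h
      · exact (h1 y hy x hx h).symm
    · intro h
      rcases mem_union.1 hx with hxA | hxB <;> rcases mem_union.1 hy with hyA | hyB
      · exact Or.inl ⟨h, Or.inl ⟨hxA, hyA⟩⟩
      · exact Or.inr ⟨h.ne, h2 x hxA y hyB h⟩
      · exact Or.inr ⟨h.ne, (h2 y hyA x hxB h.symm).symm⟩
      · exact Or.inl ⟨h, Or.inr ⟨hxB, hyB⟩⟩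
  | @relabel A l m i j hi hm h ih =>
    exact (ih.relabel i j).congr (fun _ _ _ _ => Iff.rfl) fun x hx => (hm x hx).symm

lemma cwLE_of_gb [Fintype V] {m : ℕ} {l : V → Fin m} (h : GB m G univ l) : CwLE G m := by
  obtain ⟨W, G', m, hb, e, _⟩ := h
  refine ⟨W, G', m, hb, ⟨?_⟩⟩
  have f : G ≃g G.induce ((univ : Finset V) : Set V) :=
    ⟨⟨fun x => ⟨x, by simp⟩, fun x => x.1, fun _ => rfl, fun _ => rfl⟩, by simp⟩
  exact f.trans e

/-- `D` is attached to the vertex `c` of the labelled graph on `A`. -/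
theorem Q.subst {c : V} {D : Finset V} (hcD : c ∉ D)
    (hroot : ∀ p : Fin (k + 1), Q k G (insert c D) (fun x => if x = c then p else 0))
    {A : Finset V} {l : V → Fin (k + 1)} (h : Q k G A l) (hAD : Disjoint A D) (hcA : c ∈ A)
    (hno : ∀ x ∈ A, x ≠ c → ∀ y ∈ D, ¬ G.Adj x y) :
    Q k G (A ∪ D) (fun x => if x ∈ D then 0 else l x) := by
  induction h with
  | single x l =>
    rw [mem_singleton] at hcA
    subst hcA
    rw [← insert_eq]
    refine (hroot (l c)).congr fun x hx => ?_
    rcases mem_insert.1 hx with h | h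
    · rw [h, if_pos rfl, if_neg hcD]
    · rw [if_pos h, if_neg (by rintro rfl; exact hcD h)]
  | @union A B l P hd hP h1 h2 hA hB iA iB =>
    have hA' : Disjoint A D := disjoint_of_subset_left subset_union_left hAD
    have hB' : Disjoint B D := disjoint_of_subset_left subset_union_right hAD
    have key : ∀ x, ∀ y, x ∈ A ∪ B ∪ D → y ∈ A ∪ B ∪ D →
        ((if x ∈ D then (0 : Fin (k + 1)) else l x), (if y ∈ D then (0 : Fin (k + 1)) else l y)) ∈ P →
        G.Adj x y := by
      intro x y hx hy h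
      have h3 := hP _ h
      by_cases hxD : x ∈ D
      · simp [hxD] at h3
      by_cases hyD : y ∈ D
      · simp [hyD] at h3
      rw [if_neg hxD, if_neg hyD] at h
      exact h1 x ((mem_union.1 hx).resolve_right hxD) y ((mem_union.1 hy).resolve_right hyD) h
    rcases mem_union.1 hcA with hc | hc
    · have e : A ∪ B ∪ D = (A ∪ D) ∪ B := by rw [union_right_comm]
      have hcB : c ∉ B := (Finset.disjoint_left.1 hd) hc
      rw [e]
      refine Q.union' P ?_ hP (iA hA' hc fun x hx => hno x (mem_union_left _ hx)) hB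
        (fun _ _ => rfl) (fun x hx => ?_) ?_ ?_
      · rw [disjoint_union_left]; exact ⟨hd, hB'.symm⟩
      · rw [if_neg ((Finset.disjoint_left.1 hB') hx)]
      · rw [← e]
        exact fun x hx y hy h => key x y hx hy h
      · intro x hx y hy hxy
        have hyD : y ∉ D := (Finset.disjoint_left.1 hB') hy
        rcases mem_union.1 hx with hx | hx
        · have hxD : x ∉ D := (Finset.disjoint_left.1 hA') hx
          rw [if_neg hxD, if_neg hyD]
          exact h2 x hx y hy hxy
        · exact absurd hxy.symm (hno y (mem_union_right _ hy) (by rintro rfl; exact hcB hy) x hx)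
    · have e : A ∪ B ∪ D = A ∪ (B ∪ D) := by rw [union_assoc]
      have hcA' : c ∉ A := (Finset.disjoint_right.1 hd) hc
      rw [e]
      refine Q.union' P ?_ hP hA (iB hB' hc fun x hx => hno x (mem_union_right _ hx))
        (fun x hx => ?_) (fun _ _ => rfl) ?_ ?_
      · rw [disjoint_union_right]; exact ⟨hd, hA'⟩
      · rw [if_neg ((Finset.disjoint_left.1 hA') hx)]
      · rw [← e]
        exact fun x hx y hy h => key x y hx hy h
      · intro x hx y hy hxy
        have hxD : x ∉ D := (Finset.disjoint_left.1 hA') hx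
        rcases mem_union.1 hy with hy | hy
        · have hyD : y ∉ D := (Finset.disjoint_left.1 hB') hy
          rw [if_neg hxD, if_neg hyD]
          exact h2 x hx y hy hxy
        · exact absurd hxy (hno x (mem_union_left _ hx) (by rintro rfl; exact hcA' hx) y hy)
  | @relabel A l m i j hi hm h ih =>
    refine Q.relabel i j hi (fun x hx => ?_) (ih hAD hcA hno)
    by_cases hxD : x ∈ D
    · rw [if_pos hxD, if_pos hxD, if_neg (Ne.symm hi)]
    · rw [if_neg hxD, if_neg hxD]
      exact hm x ((mem_union.1 hx).resolve_right hxD)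

/-- transport along an embedding -/
theorem Q.map {U : Type} {f : U ↪ V} {A : Finset U} {l : U → Fin (k + 1)}
    (h : Q k (G.comap f) A l) : ∀ m : V → Fin (k + 1), (∀ x ∈ A, m (f x) = l x) →
      Q k G (A.map f) m := by
  induction h with
  | single x l =>
    intro m _
    rw [map_singleton]
    exact Q.single _ _
  | @union A B l P hd hP h1 h2 hA hB iA iB =>
    intro m hm
    rw [map_union]
    refine Q.union P ((disjoint_map f).2 hd) hP ?_ ?_
      (iA m fun x hx => hm x (mem_union_left _ hx)) (iB m fun x hx => hm x (mem_union_right _ hx))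
    · rw [← map_union]
      intro x hx y hy h
      obtain ⟨x, hx', rfl⟩ := mem_map.1 hx
      obtain ⟨y, hy', rfl⟩ := mem_map.1 hy
      rw [hm x hx', hm y hy'] at h
      exact h1 x hx' y hy' h
    · intro x hx y hy h
      obtain ⟨x, hx', rfl⟩ := mem_map.1 hx
      obtain ⟨y, hy', rfl⟩ := mem_map.1 hy
      rw [hm x (mem_union_left _ hx'), hm y (mem_union_right _ hy')]
      exact h2 x hx' y hy' h
  | @relabel A l m' i j hi hm' h ih =>
    intro m hm
    -- an extension of `l`
    let l' : V → Fin (k + 1) := fun v => if h : ∃ x ∈ A, f x = v then l h.choose else 0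
    have hl' : ∀ x ∈ A, l' (f x) = l x := by
      intro x hx
      have h : ∃ y ∈ A, f y = f x := ⟨x, hx, rfl⟩
      simp only [l', h, dif_pos]
      rw [f.injective h.choose_spec.2]
    refine Q.relabel i j hi (fun v hv => ?_) (ih l' hl')
    obtain ⟨x, hx, rfl⟩ := mem_map.1 hv
    rw [hm x hx, hm' x hx, hl' x hx]

/-- rooted constructions: all vertices but the root `c` end with the label `0` -/
def RootQ (k : ℕ) (G : SimpleGraph V) (A : Finset V) (c : V) : Prop :=
  ∀ p : Fin (k + 1), Q k G A (fun x => if x = c then p else 0)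

lemma rootQ_of {A : Finset V} {c : V} {q : Fin (k + 1)} (hq : q ≠ 0)
    (h : Q k G A (fun x => if x = c then q else 0)) : RootQ k G A c := by
  intro p
  refine Q.relabel q p hq (fun x _ => ?_) h
  by_cases hx : x = c
  · simp [hx]
  · simp [hx, Ne.symm hq]

/-- two adjacent vertices -/
lemma rootQ_pair (hk : 2 ≤ k) {a c : V} (hac : G.Adj a c) : RootQ k G {a, c} c := by
  have e2 : ((2 : Fin (k + 1)) : ℕ) = 2 := by
    show 2 % (k + 1) = 2
    exact Nat.mod_eq_of_lt (by omega)
  have e1 : ((1 : Fin (k + 1)) : ℕ) = 1 := by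
    show 1 % (k + 1) = 1
    exact Nat.mod_eq_of_lt (by omega)
  have h1 : (1 : Fin (k + 1)) ≠ 0 := by
    intro h; have := congrArg Fin.val h
    rw [e1, Fin.val_zero] at this; omega
  have h2 : (2 : Fin (k + 1)) ≠ 0 := by
    intro h; have := congrArg Fin.val h
    rw [e2, Fin.val_zero] at this; omega
  have h12 : (1 : Fin (k + 1)) ≠ 2 := by
    intro h; have := congrArg Fin.val h
    rw [e1, e2] at this; omega
  apply rootQ_of h1
  have hne : a ≠ c := hac.ne
  refine Q.relabel (2 : Fin (k + 1)) 0 h2 (l := fun x => if x = c then 1 else 2) (fun x hx => ?_) ?_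
  · by_cases hxc : x = c
    · simp [hxc, h12]
    · simp [hxc]
  · have e : ({a, c} : Finset V) = {a} ∪ {c} := rfl
    rw [e]
    refine Q.union {(1, 2)} (by simpa using hne) ?_ ?_ ?_ (Q.single _ _) (Q.single _ _)
    · intro p hp
      rw [mem_singleton] at hp
      subst hp
      exact ⟨h12, h1, h2⟩
    · intro x hx y hy h
      simp only [mem_singleton, Prod.mk.injEq] at h
      have hx' : x = a ∨ x = c := by simpa using hx
      have hy' : y = a ∨ y = c := by simpa using hy
      rcases hx' with rfl | rfl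
      · rw [if_neg hne] at h
        exact absurd h.1.symm h12
      · rcases hy' with rfl | rfl
        · exact hac.symm
        · rw [if_pos rfl] at h
          exact absurd h.2 h12
    · intro x hx y hy _
      rw [mem_singleton] at hx hy
      subst hx; subst hy
      right
      simp [hne]

end Pool.Agent.KS6_18.ITM
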