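import Pool.Agent.KS6_18.ITM.Q

/-!
Rooted constructions of cycles (four labels) and of complete multipartite graphs (three labels).
-/

set_option autoImplicit false

namespace Pool.Agent.KS6_18.ITM

open SimpleGraph Pool.Agent.H175R2 Pool.Agent.W124.ITM Finset Classical

section Cycle

variable {V : Type} [Fintype V] {G : SimpleGraph V}

/-- a path `A` from the neighbour `a` of `c` to `b`, in a graph of maximum degree two -/
structure PInv (G : SimpleGraph V) (c : V) (A : Finset V) (a b : V) : Prop where
  q : Q 3 G A (fun x => if x = a then 1 else if x = b then 2 else 0)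
  aA : a ∈ A
  bA : b ∈ A
  ab : a ≠ b
  cA : c ∉ A
  ca : G.Adj c a
  hin : ∀ x ∈ A, x ≠ a → x ≠ b → ∀ y, G.Adj x y → y ∈ A
  ha : ∀ y, G.Adj a y → y ∈ A ∨ y = c
  hb : ∃ z ∈ A, G.Adj b z

lemma PInv.finish {c : V} {A : Finset V} {a b : V} (hG : TwoConn G) (hD : D2 G)
    (h : PInv G c A a b) (hbc : G.Adj b c) : RootQ 3 G univ c := by
  obtain ⟨z, hz, hbz⟩ := h.hb
  have hac : a ≠ c := fun e => h.cA (e ▸ h.aA)
  have hbc' : b ≠ c := fun e => h.cA (e ▸ h.bA)
  have hcN : ∀ y, G.Adj c y → y = a ∨ y = b := by
    intro y hy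
    rcases hD c a b y h.ca hbc.symm hy with e | e | e
    · exact absurd e h.ab
    · exact Or.inl e.symm
    · exact Or.inr e.symm
  have hbN : ∀ y, G.Adj b y → y ∈ A ∨ y = c := by
    intro y hy
    rcases hD b z c y hbz hbc hy with e | e | e
    · exact absurd (e ▸ hz) h.cA
    · exact Or.inl (e ▸ hz)
    · exact Or.inr e.symm
  have hcl : ∀ x ∈ A, ∀ y, G.Adj x y → y ∈ A ∨ y = c := by
    intro x hx y hxy
    by_cases hxa : x = a
    · exact h.ha y (hxa ▸ hxy)
    by_cases hxb : x = b
    · exact hbN y (hxb ▸ hxy)
    · exact Or.inl (h.hin x hx hxa hxb y hxy)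
  have huniv : (univ : Finset V) = A ∪ {c} := by
    by_contra hne
    have hne' : (univ \ (A ∪ {c})).Nonempty := by
      rw [sdiff_nonempty]
      exact fun hs => hne (subset_antisymm hs (subset_univ _))
    obtain ⟨x, hx, y, hy, hxy⟩ := hG.conn.2 (A ∪ {c}) (subset_univ _) ⟨c, by simp⟩ hne'
    apply (mem_sdiff.1 hy).2
    rcases mem_union.1 hx with hx | hx
    · rcases hcl x hx y hxy with h' | h'
      · exact mem_union_left _ h'
      · exact mem_union_right _ (mem_singleton.2 h')
    · rw [mem_singleton] at hx
      subst hx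
      rcases hcN y hxy with rfl | rfl
      · exact mem_union_left _ h.aA
      · exact mem_union_left _ h.bA
  apply rootQ_of (q := 3) (by decide)
  rw [huniv]
  refine Q.relabel 2 0 (by decide) (l := fun x => if x = c then 3 else if x = b then 2 else 0)
    (fun x _ => ?_) ?_
  · by_cases h1 : x = c
    · simp [h1]
    · by_cases h2 : x = b
      · simp [h1, h2, hbc']
      · simp [h1, h2]
  refine Q.relabel 1 0 (by decide)
    (l := fun x => if x = c then 3 else if x = a then 1 else if x = b then 2 else 0)
    (fun x _ => ?_) ?_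
  · by_cases h1 : x = c
    · simp [h1]
    · by_cases h2 : x = a
      · simp [h1, h2, h.ab, hac]
      · by_cases h3 : x = b
        · simp [h3, hbc', h.ab.symm]
        · simp [h1, h2, h3]
  refine Q.union' {(1, 3), (2, 3)} ?_ ?_ h.q (Q.single c (fun _ => 3)) (fun x hx => ?_)
    (fun x hx => ?_) ?_ ?_
  · rw [disjoint_singleton_right]; exact h.cA
  · intro p hp
    simp only [mem_insert, mem_singleton] at hp
    rcases hp with rfl | rfl <;> decide
  · have : x ≠ c := fun e => h.cA (e ▸ hx)
    simp [this]
  · rw [mem_singleton] at hx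
    simp [hx]
  · intro x _ y _ hP
    simp only [mem_insert, mem_singleton, Prod.mk.injEq] at hP
    have hy3 : (if y = c then (3 : Fin 4) else if y = a then 1 else if y = b then 2 else 0) = 3 := by
      rcases hP with hP | hP <;> exact hP.2
    have hyc : y = c := by
      by_contra hyc
      rw [if_neg hyc] at hy3
      split_ifs at hy3 <;> exact absurd hy3 (by decide)
    have hx' : x = a ∨ x = b := by
      by_contra hcon
      push Not at hcon
      by_cases hxc : x = c
      · simp only [hxc, if_true] at hP
        rcases hP with ⟨hP, _⟩ | ⟨hP, _⟩ <;> exact absurd hP (by decide)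
      · simp only [hxc, hcon.1, hcon.2, if_false] at hP
        rcases hP with ⟨hP, _⟩ | ⟨hP, _⟩ <;> exact absurd hP (by decide)
    rw [hyc]
    rcases hx' with rfl | rfl
    · exact h.ca.symm
    · exact hbc
  · intro x hx y hy hxy
    rw [mem_singleton] at hy
    subst hy
    left
    rcases hcN x hxy.symm with rfl | rfl
    · simp [hac]
    · simp [hbc', h.ab.symm]

lemma PInv.next {c : V} {A : Finset V} {a b : V} (hG : TwoConn G)
    (h : PInv G c A a b) (hbc : ¬ G.Adj b c) : ∃ w, w ∉ A ∧ w ≠ c ∧ G.Adj b w := by
  by_contra hcon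
  push Not at hcon
  have hbN : ∀ y, G.Adj b y → y ∈ A := by
    intro y hy
    by_contra hyA
    exact hcon y hyA (fun e => hbc (e ▸ hy)) hy
  have hac : a ≠ c := fun e => h.cA (e ▸ h.aA)
  have hbc' : b ≠ c := fun e => h.cA (e ▸ h.bA)
  have hcov : ∀ y, y ≠ c → y ∈ A := by
    by_contra hc2
    push Not at hc2
    obtain ⟨y0, hy0, hy0A⟩ := hc2
    obtain ⟨x, hx, y, hy, hxy⟩ := (hG.del c).2 A (fun x hx => mem_erase.2
      ⟨fun e => h.cA (e ▸ hx), mem_univ _⟩) ⟨a, h.aA⟩ ⟨y0, mem_sdiff.2 ⟨mem_erase.2
        ⟨hy0, mem_univ _⟩, hy0A⟩⟩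
    obtain ⟨hy1, hy2⟩ := mem_sdiff.1 hy
    have hyc := (mem_erase.1 hy1).1
    by_cases hxa : x = a
    · rcases h.ha y (hxa ▸ hxy) with e | e
      · exact hy2 e
      · exact hyc e
    by_cases hxb : x = b
    · exact hy2 (hbN y (hxb ▸ hxy))
    · exact hy2 (h.hin x hx hxa hxb y hxy)
  obtain ⟨x, hx, y, hy, hxy⟩ := (hG.del a).2 {c} (by
    intro x hx
    rw [mem_singleton] at hx
    exact mem_erase.2 ⟨hx ▸ hac.symm, mem_univ _⟩) ⟨c, by simp⟩ ⟨b, by
      simp [h.ab.symm, hbc']⟩
  rw [mem_singleton] at hx
  subst hx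
  obtain ⟨hy1, hy2⟩ := mem_sdiff.1 hy
  have hya := (mem_erase.1 hy1).1
  have hyc : y ≠ x := fun e => hy2 (mem_singleton.2 e)
  by_cases hyb : y = b
  · exact hbc (hyb ▸ hxy.symm)
  · exact h.cA (h.hin y (hcov y hyc) hya hyb x hxy.symm)

lemma PInv.step {c : V} {A : Finset V} {a b w : V} (hD : D2 G)
    (h : PInv G c A a b) (hwA : w ∉ A) (hwc : w ≠ c) (hbw : G.Adj b w) :
    PInv G c (A ∪ {w}) a w := by
  obtain ⟨z, hz, hbz⟩ := h.hb
  have hwa : w ≠ a := fun e => hwA (e ▸ h.aA)
  have hwb : w ≠ b := fun e => hwA (e ▸ h.bA)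
  have hbN : ∀ y, G.Adj b y → y ∈ A ∨ y = w := by
    intro y hy
    rcases hD b z w y hbz hbw hy with e | e | e
    · exact absurd (e ▸ hz) hwA
    · exact Or.inl (e ▸ hz)
    · exact Or.inr e.symm
  refine ⟨?_, mem_union_left _ h.aA, mem_union_right _ (mem_singleton_self _), hwa.symm, ?_, h.ca,
    ?_, ?_, ⟨b, mem_union_left _ h.bA, hbw.symm⟩⟩
  · refine Q.relabel 3 2 (by decide) (l := fun x => if x = a then 1 else if x = w then 3 else 0)
      (fun x _ => ?_) ?_
    · by_cases h1 : x = a
      · simp [h1]
      · by_cases h2 : x = w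
        · simp [h2, hwa]
        · simp [h1, h2]
    refine Q.relabel 2 0 (by decide)
      (l := fun x => if x = w then 3 else if x = a then 1 else if x = b then 2 else 0)
      (fun x _ => ?_) ?_
    · by_cases h1 : x = w
      · simp [h1, hwa]
      · by_cases h2 : x = a
        · simp [h2, hwa.symm]
        · by_cases h3 : x = b
          · simp [h3, hwb.symm, h.ab.symm]
          · simp [h1, h2, h3]
    refine Q.union' {(2, 3)} ?_ ?_ h.q (Q.single w (fun _ => 3)) (fun x hx => ?_)
      (fun x hx => ?_) ?_ ?_
    · rw [disjoint_singleton_right]; exact hwA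
    · intro p hp
      simp only [mem_singleton] at hp
      rcases hp with rfl; decide
    · have : x ≠ w := fun e => hwA (e ▸ hx)
      simp [this]
    · rw [mem_singleton] at hx
      simp [hx]
    · intro x _ y _ hP
      simp only [mem_singleton, Prod.mk.injEq] at hP
      obtain ⟨hP1, hP2⟩ := hP
      have hyw : y = w := by
        by_contra hyc
        rw [if_neg hyc] at hP2
        split_ifs at hP2 <;> exact absurd hP2 (by decide)
      have hxb : x = b := by
        by_contra hcon
        split_ifs at hP1 <;> exact absurd hP1 (by decide)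
      rw [hyw, hxb]; exact hbw
    · intro x hx y hy hxy
      rw [mem_singleton] at hy
      subst hy
      left
      have hxb : x = b := by
        by_contra hxb
        by_cases hxa : x = a
        · rcases h.ha y (hxa ▸ hxy) with e | e
          · exact hwA e
          · exact hwc e
        · exact hwA (h.hin x hx hxa hxb y hxy)
      simp [hxb, hwb.symm, h.ab.symm]
  · rw [mem_union, mem_singleton, not_or]
    exact ⟨h.cA, fun e => hwc e.symm⟩
  · intro x hx hxa hxw y hxy
    have hxA : x ∈ A := (mem_union.1 hx).resolve_right fun h => hxw (mem_singleton.1 h)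
    by_cases hxb : x = b
    · rcases hbN y (hxb ▸ hxy) with e | e
      · exact mem_union_left _ e
      · exact mem_union_right _ (mem_singleton.2 e)
    · exact mem_union_left _ (h.hin x hxA hxa hxb y hxy)
  · intro y hy
    rcases h.ha y hy with e | e
    · exact Or.inl (mem_union_left _ e)
    · exact Or.inr e

lemma PInv.root {c : V} (hG : TwoConn G) (hD : D2 G) : ∀ (n : ℕ) (A : Finset V) (a b : V),
    (univ \ A).card ≤ n → PInv G c A a b → RootQ 3 G univ c := by
  intro n
  induction n with
  | zero =>
    intro A a b hn h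
    rw [Nat.le_zero, card_eq_zero, sdiff_eq_empty_iff_subset] at hn
    exact absurd (hn (mem_univ c)) h.cA
  | succ n ih =>
    intro A a b hn h
    by_cases hbc : G.Adj b c
    · exact h.finish hG hD hbc
    · obtain ⟨w, hwA, hwc, hbw⟩ := h.next hG hbc
      refine ih (A ∪ {w}) a w ?_ (h.step hD hwA hwc hbw)
      have : (univ \ (A ∪ {w})).card < (univ \ A).card := by
        apply card_lt_card
        refine ⟨sdiff_subset_sdiff (Subset.refl _) subset_union_left, fun hs => ?_⟩
        have := hs (mem_sdiff.2 ⟨mem_univ w, hwA⟩)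
        simp at this
      omega

theorem rootQ_d2 (hG : TwoConn G) (hD : D2 G) (c : V) : RootQ 3 G univ c := by
  have hcard := hG.card
  -- a neighbour of `c`
  obtain ⟨y0, hy0⟩ := Fintype.exists_ne_of_one_lt_card (by omega : 1 < Fintype.card V) c
  obtain ⟨x, hx, a, ha, hca⟩ := hG.conn.2 {c} (subset_univ _) ⟨c, by simp⟩ ⟨y0, by simp [hy0]⟩
  rw [mem_singleton] at hx
  subst hx
  have hac : a ≠ x := hca.ne.symm
  -- another vertex
  obtain ⟨y1, hy1, hy1'⟩ : ∃ y, y ≠ x ∧ y ≠ a := by
    by_contra hcon
    push Not at hcon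
    have : (univ : Finset V) ⊆ {x, a} := by
      intro y _
      simp only [mem_insert, mem_singleton]
      by_cases h : y = x
      · exact Or.inl h
      · exact Or.inr (hcon y h)
    have h2 := (card_le_card this).trans card_le_two
    rw [card_univ] at h2
    omega
  obtain ⟨x', hx', u, hu, hau⟩ := (hG.del x).2 {a} (by
    intro z hz
    rw [mem_singleton] at hz
    exact mem_erase.2 ⟨hz ▸ hac, mem_univ _⟩) ⟨a, by simp⟩ ⟨y1, by simp [hy1, hy1']⟩
  rw [mem_singleton] at hx'
  subst hx'
  obtain ⟨hu1, hu2⟩ := mem_sdiff.1 hu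
  have hux := (mem_erase.1 hu1).1
  have hua : u ≠ x' := fun e => hu2 (mem_singleton.2 e)
  refine PInv.root hG hD _ ({x'} ∪ {u}) x' u le_rfl ⟨?_, by simp, by simp, hua.symm, ?_, hca, ?_, ?_,
    ⟨x', by simp, hau.symm⟩⟩
  · refine Q.union {(1, 2)} (by simpa using hua.symm) ?_ ?_ ?_ (Q.single _ _) (Q.single _ _)
    · intro p hp
      simp only [mem_singleton] at hp
      rcases hp with rfl; decide
    · intro y _ z _ hP
      simp only [mem_singleton, Prod.mk.injEq] at hP
      obtain ⟨hP1, hP2⟩ := hP
      have h1 : y = x' := by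
        by_contra hcon
        split_ifs at hP1 <;> exact absurd hP1 (by decide)
      have h2 : z = u := by
        by_contra hcon
        split_ifs at hP2 <;> exact absurd hP2 (by decide)
      rw [h1, h2]; exact hau
    · intro y hy z hz _
      rw [mem_singleton] at hy hz
      subst hy; subst hz
      left
      simp [hua]
  · rw [mem_union, mem_singleton, mem_singleton, not_or]
    exact ⟨hac.symm, fun e => hux e.symm⟩
  · intro y hy h1 h2
    rcases mem_union.1 hy with h | h <;> rw [mem_singleton] at h
    · exact absurd h h1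
    · exact absurd h h2
  · intro y hy
    rcases hD x' x u y hca.symm hau hy with e | e | e
    · exact absurd e.symm hux
    · exact Or.inr e.symm
    · exact Or.inl (by rw [← e]; simp)

end Cycle

section Multi

variable {V : Type} {G : SimpleGraph V} {k : ℕ}

lemma q_indep (p : Fin (k + 1)) : ∀ S : Finset V, S.Nonempty →
    (∀ x ∈ S, ∀ y ∈ S, ¬ G.Adj x y) → Q k G S (fun _ => p) := by
  intro S
  induction S using Finset.induction_on with
  | empty => intro h; exact absurd h (by simp)
  | insert a s ha ih =>
    intro _ hind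
    by_cases hs : s.Nonempty
    · rw [insert_eq]
      refine Q.union' ∅ (by simpa using ha) (by simp) (Q.single a (fun _ => p))
        (ih hs fun x hx y hy => hind x (mem_insert_of_mem hx) y (mem_insert_of_mem hy))
        (fun _ _ => rfl) (fun _ _ => rfl) (by simp) ?_
      intro x hx y hy hxy
      rw [mem_singleton] at hx
      exact absurd hxy (hind x (by rw [hx]; exact mem_insert_self _ _) y (mem_insert_of_mem hy))
    · rw [not_nonempty_iff_eq_empty] at hs
      subst hs
      exact Q.single _ _

lemma q_cm (hCM : CM G) {p q : Fin (k + 1)} (hp : p ≠ 0) (hq : q ≠ 0) (hpq : p ≠ q) :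
    ∀ (n : ℕ) (S : Finset V), S.card ≤ n → S.Nonempty → Q k G S (fun _ => p) := by
  intro n
  induction n with
  | zero =>
    intro S hc hn
    rw [Nat.le_zero, card_eq_zero] at hc
    rw [hc] at hn; simp at hn
  | succ n ih =>
    intro S hc hn
    obtain ⟨x, hx⟩ := hn
    set R := S.filter (fun y => G.Adj x y) with hR
    set P := S.filter (fun y => ¬ G.Adj x y) with hPdef
    have hxP : x ∈ P := mem_filter.2 ⟨hx, G.loopless.irrefl x⟩
    have hPi : ∀ y ∈ P, ∀ z ∈ P, ¬ G.Adj y z := by
      intro y hy z hz hyz
      have hy' := (mem_filter.1 hy).2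
      have hz' := (mem_filter.1 hz).2
      by_cases h1 : x = y
      · exact hz' (h1 ▸ hyz)
      by_cases h2 : x = z
      · exact hy' (h2 ▸ hyz.symm)
      rcases hCM y z x hyz h1 h2 with h | h
      · exact hy' h
      · exact hz' h
    have hSRP : S = R ∪ P := by
      ext z; simp only [hR, hPdef, mem_union, mem_filter]; tauto
    have hPq : ∀ r, Q k G P (fun _ => r) := fun r => q_indep r P ⟨x, hxP⟩ hPi
    by_cases hRn : R.Nonempty
    · have hcard : R.card ≤ n := by
        have : R.card < S.card := card_lt_card (by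
          refine ⟨filter_subset _ _, fun h' => ?_⟩
          exact (mem_filter.1 hxP).2 (mem_filter.1 (h' hx)).2)
        omega
      have h1 := ih R hcard hRn
      rw [hSRP]
      refine Q.relabel q p hq (l := fun y => if G.Adj x y then p else q) (fun y _ => ?_) ?_
      · by_cases hxy : G.Adj x y
        · simp [hxy, hpq]
        · simp [hxy]
      refine Q.union' {(p, q)} ?_ ?_ h1 (hPq q) (fun y hy => ?_) (fun y hy => ?_) ?_ ?_
      · rw [Finset.disjoint_left]
        intro y hy hy'
        exact (mem_filter.1 hy').2 (mem_filter.1 hy).2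
      · intro r hr
        rw [mem_singleton] at hr
        subst hr
        exact ⟨hpq, hp, hq⟩
      · rw [if_pos (mem_filter.1 hy).2]
      · rw [if_neg (mem_filter.1 hy).2]
      · intro y _ z _ h
        simp only [mem_singleton, Prod.mk.injEq] at h
        have hy : G.Adj x y := by
          by_contra hcon
          rw [if_neg hcon] at h
          exact hpq h.1.symm
        have hz : ¬ G.Adj x z := by
          intro hcon
          rw [if_pos hcon] at h
          exact hpq h.2
        by_cases h1 : z = x
        · rw [h1]; exact hy.symm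
        · have h2 : z ≠ y := fun e => hz (e ▸ hy)
          rcases hCM x y z hy h1 h2 with h3 | h3
          · exact absurd h3.symm hz
          · exact h3.symm
      · intro y hy z hz _
        left
        rw [if_pos (mem_filter.1 hy).2, if_neg (mem_filter.1 hz).2]
        simp
    · rw [not_nonempty_iff_eq_empty] at hRn
      rw [hSRP, hRn, empty_union]
      exact hPq p

theorem rootQ_cm [Fintype V] (hCM : CM G) {p q : Fin (k + 1)} (hp : p ≠ 0) (hq : q ≠ 0)
    (hpq : p ≠ q) {c : V} (hc : ∃ y, G.Adj c y) : RootQ k G univ c := by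
  obtain ⟨y0, hy0⟩ := hc
  set S := (univ : Finset V).filter (fun y => G.Adj c y) with hS
  set T := (univ : Finset V).filter (fun y => ¬ G.Adj c y ∧ y ≠ c) with hT
  have hSn : S.Nonempty := ⟨y0, mem_filter.2 ⟨mem_univ _, hy0⟩⟩
  have hST : Disjoint S T := by
    rw [Finset.disjoint_left]
    intro y hy hy'
    exact (mem_filter.1 hy').2.1 (mem_filter.1 hy).2
  have hTi : ∀ y ∈ T, ∀ z ∈ T, ¬ G.Adj y z := by
    intro y hy z hz hyz
    have hy' := (mem_filter.1 hy).2
    have hz' := (mem_filter.1 hz).2
    rcases hCM y z c hyz hy'.2.symm hz'.2.symm with h | h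
    · exact hy'.1 h
    · exact hz'.1 h
  have hQS := q_cm hCM hp hq hpq S.card S le_rfl hSn
  have hU : Q k G (S ∪ T) (fun y => if G.Adj c y then p else 0) := by
    by_cases hTn : T.Nonempty
    · refine Q.relabel q 0 hq (l := fun y => if G.Adj c y then p else q) (fun y _ => ?_) ?_
      · by_cases hxy : G.Adj c y
        · simp [hxy, hpq]
        · simp [hxy]
      refine Q.union' {(p, q)} hST ?_ hQS (q_indep q T hTn hTi) (fun y hy => ?_) (fun y hy => ?_) ?_ ?_
      · intro r hr
        rw [mem_singleton] at hr
        subst hr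
        exact ⟨hpq, hp, hq⟩
      · rw [if_pos (mem_filter.1 hy).2]
      · rw [if_neg (mem_filter.1 hy).2.1]
      · intro y hy' z hz' h
        simp only [mem_singleton, Prod.mk.injEq] at h
        have hy : G.Adj c y := by
          by_contra hcon
          rw [if_neg hcon] at h
          exact hpq h.1.symm
        have hz : ¬ G.Adj c z := by
          intro hcon
          rw [if_pos hcon] at h
          exact hpq h.2
        have hzT : z ∈ T := by
          rcases mem_union.1 hz' with h' | h'
          · exact absurd (mem_filter.1 h').2 hz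
          · exact h'
        have h1 : z ≠ c := (mem_filter.1 hzT).2.2
        have h2 : z ≠ y := fun e => hz (e ▸ hy)
        rcases hCM c y z hy h1 h2 with h3 | h3
        · exact absurd h3.symm hz
        · exact h3.symm
      · intro y hy z hz _
        left
        rw [if_pos (mem_filter.1 hy).2, if_neg (mem_filter.1 hz).2.1]
        simp
    · rw [not_nonempty_iff_eq_empty] at hTn
      rw [hTn, union_empty]
      refine hQS.congr fun y hy => ?_
      rw [if_pos (mem_filter.1 hy).2]
  have huniv : (univ : Finset V) = (S ∪ T) ∪ {c} := by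
    ext y
    simp only [hS, hT, mem_univ, mem_union, mem_filter, true_and, mem_singleton, true_iff]
    tauto
  have hcST : c ∉ S ∪ T := by
    simp [hS, hT]
  apply rootQ_of hq
  rw [huniv]
  refine Q.relabel p 0 hp (l := fun y => if y = c then q else if G.Adj c y then p else 0)
    (fun y _ => ?_) ?_
  · by_cases h1 : y = c
    · simp [h1, hpq.symm]
    · by_cases h2 : G.Adj c y
      · simp [h1, h2]
      · simp [h1, h2]
  refine Q.union' {(p, q)} ?_ ?_ hU (Q.single c (fun _ => q)) (fun y hy => ?_) (fun y hy => ?_) ?_ ?_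
  · rw [disjoint_singleton_right]; exact hcST
  · intro r hr
    rw [mem_singleton] at hr
    subst hr
    exact ⟨hpq, hp, hq⟩
  · have : y ≠ c := fun e => hcST (e ▸ hy)
    simp [this]
  · rw [mem_singleton] at hy
    simp [hy]
  · intro y _ z _ h
    simp only [mem_singleton, Prod.mk.injEq] at h
    obtain ⟨hP1, hP2⟩ := h
    have hzc : z = c := by
      by_contra hcon
      rw [if_neg hcon] at hP2
      split_ifs at hP2
      · exact hpq hP2
      · exact hq hP2.symm
    have hyc : G.Adj c y := by
      by_contra hcon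
      by_cases hyc : y = c
      · rw [if_pos hyc] at hP1
        exact hpq hP1.symm
      · rw [if_neg hyc, if_neg hcon] at hP1
        exact hp hP1.symm
    rw [hzc]; exact hyc.symm
  · intro y hy z hz hyz
    rw [mem_singleton] at hz
    subst hz
    left
    have hyc : y ≠ z := fun e => hcST (e ▸ hy)
    simp [hyc, hyz.symm]

end Multi

end Pool.Agent.KS6_18.ITM
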