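import Pool.Agent.KS6_18.ITM.Blocks
import Pool.Agent.KS6_18.ITM.Roots

/-!
The upper bounds: 4 for the paw and the diamond, 3 for the triangle, 2 for the path `P₄`, 1 for
`K₂`, 0 for `K₁`.
-/

set_option autoImplicit false

namespace Pool.Agent.KS6_18.ITM

open SimpleGraph Pool.Agent.H175R2 Pool.Agent.W124.ITM Finset Classical

theorem cw_empty {V : Type} (G : SimpleGraph V) (hV : ¬ Nonempty V) : cliqueWidth G = 0 := by
  unfold cliqueWidth
  rw [Nat.sInf_eq_zero]
  right
  ext k
  simp only [Set.mem_ofPred_eq, Set.mem_empty_iff_false, iff_false]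
  rintro ⟨U, G', l, hb, ⟨e⟩⟩
  have hU : Nonempty U := by
    clear e
    induction hb with
    | single => exact ⟨()⟩
    | union V W G H l m _ _ h1 _ => exact ⟨Sum.inl h1.some⟩
    | join _ _ _ _ _ _ _ h => exact h
    | relabel _ _ _ _ _ _ h => exact h
  exact hV ⟨e.symm hU.some⟩

theorem cw_le_of {V : Type} {G : SimpleGraph V} {k : ℕ} (h : Nonempty V → CwLE G k) :
    cliqueWidth G ≤ k := by
  by_cases hV : Nonempty V
  · exact Nat.sInf_le (h hV)
  · rw [cw_empty G hV]; exact Nat.zero_le _

theorem cw_diamond {V : Type} [Finite V] (G : SimpleGraph V) (hG : ¬ IsITM diamond G) :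
    cliqueWidth G ≤ 4 := by
  have := Fintype.ofFinite V
  refine cw_le_of fun hV => cwLE_of_blocks diamond 3 (by norm_num) ?_ V G hG
  intro V _ G hG hD c
  rcases diamond_main _ V G le_rfl hG hD with h | h
  · obtain ⟨u, v, _, hu, _⟩ := two_nbrs hG c
    exact rootQ_cm (p := 1) (q := 2) (fun x y z _ hzx _ => Or.inl (h z x hzx)) (by decide) (by decide)
      (by decide) ⟨u, hu⟩
  · exact rootQ_d2 hG h c

theorem cw_paw {V : Type} [Finite V] (G : SimpleGraph V) (hG : ¬ IsITM paw G) :
    cliqueWidth G ≤ 4 := by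
  have := Fintype.ofFinite V
  refine cw_le_of fun hV => cwLE_of_blocks paw 3 (by norm_num) ?_ V G hG
  intro V _ G hG hD c
  rcases paw_main _ V G le_rfl hG hD with h | h
  · obtain ⟨u, v, _, hu, _⟩ := two_nbrs hG c
    exact rootQ_cm (p := 1) (q := 2) h (by decide) (by decide) (by decide) ⟨u, hu⟩
  · exact rootQ_d2 hG h c

/-- three pairwise adjacent vertices -/
theorem tri_ind {V : Type} {G : SimpleGraph V} {a b c : V} (ab : G.Adj a b) (ac : G.Adj a c)
    (bc : G.Adj b c) : IsITM (⊤ : SimpleGraph (Fin 3)) G := by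
  apply IsITM.of_ind
  have hinj : Function.Injective ![a, b, c] := by
    have h1 := ab.ne
    have h2 := ac.ne
    have h3 := bc.ne
    intro i j hij
    fin_cases i <;> fin_cases j <;> simp_all
  refine ⟨⟨⟨![a, b, c], hinj⟩, ?_⟩⟩
  intro i j
  show G.Adj (![a, b, c] i) (![a, b, c] j) ↔ (⊤ : SimpleGraph (Fin 3)).Adj i j
  have h1 := ab.symm
  have h2 := ac.symm
  have h3 := bc.symm
  fin_cases i <;> fin_cases j <;> simp_all

/-- every 2-connected graph contains an induced cycle -/
theorem k3_itm : ∀ (n : ℕ) (V : Type) [Fintype V] (G : SimpleGraph V), Fintype.card V ≤ n →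
    TwoConn G → IsITM (⊤ : SimpleGraph (Fin 3)) G := by
  intro n
  induction n with
  | zero => intro V _ G hn hG; have := hG.card; omega
  | succ n ih =>
    intro V _ G hn hG
    by_cases htri : ∃ a b c, G.Adj a b ∧ G.Adj a c ∧ G.Adj b c
    · obtain ⟨a, b, c, ab, ac, bc⟩ := htri
      exact tri_ind ab ac bc
    push Not at htri
    by_cases h3 : Fintype.card V ≤ 3
    · exfalso
      obtain ⟨x, _⟩ := hG.conn.1
      obtain ⟨u, v, huv, hu, hv⟩ := two_nbrs hG x
      have hall : ∀ y, y = x ∨ y = u ∨ y = v := by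
        intro y
        by_contra hcon
        push Not at hcon
        have h4 : ({y, x, u, v} : Finset V).card = 4 := by
          rw [card_eq_four]
          exact ⟨y, x, u, v, hcon.1, hcon.2.1, hcon.2.2, hu.ne, hv.ne, huv, rfl⟩
        have := card_le_univ ({y, x, u, v} : Finset V)
        omega
      obtain ⟨p, q, hpq, hp, hq⟩ := two_nbrs hG u
      have huv' : G.Adj u v := by
        rcases hall p with rfl | rfl | rfl
        · rcases hall q with rfl | rfl | rfl
          · exact absurd rfl hpq
          · exact absurd rfl hq.ne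
          · exact hq
        · exact absurd rfl hp.ne
        · exact hp
      exact htri x u v hu hv huv'
    have h4 : 4 ≤ Fintype.card V := by omega
    have hcard : ∀ w : V, Fintype.card (Pool.Agent.H175R2.Sub (univ.erase w)) ≤ n := by
      intro w; rw [card_sub, card_erase_of_mem (mem_univ _), card_univ]; omega
    by_cases h1 : ∃ w u v, Deg2 G w u v
    · obtain ⟨w, u, v, hd⟩ := h1
      have huv : ¬ G.Adj u v := htri w u v hd.2.1 hd.2.2.1
      exact itm_supp hd huv (ih _ _ (hcard w) (supp_two hG h4 hd))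
    push Not at h1
    have hdeg : ∀ x, ∃ a b c, a ≠ b ∧ a ≠ c ∧ b ≠ c ∧ G.Adj x a ∧ G.Adj x b ∧ G.Adj x c := by
      intro x
      rcases deg_cases hG x with ⟨u, v, h⟩ | h
      · exact absurd h (h1 x u v)
      · exact h
    obtain ⟨v, hv⟩ := ckl hG hdeg
    exact (ih _ _ (hcard v) hv).mono_right (comap_ind _)

theorem cw_k3 {V : Type} [Finite V] (G : SimpleGraph V)
    (hG : ¬ IsITM (⊤ : SimpleGraph (Fin 3)) G) : cliqueWidth G ≤ 3 := by
  have := Fintype.ofFinite V
  refine cw_le_of fun hV => cwLE_of_blocks ⊤ 2 (by norm_num) ?_ V G hG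
  intro V _ G hG hD c
  exact absurd (k3_itm _ V G le_rfl hG) hD

/-- cographs with two labels -/
theorem gb_cograph {V : Type} {G : SimpleGraph V} : ∀ (n : ℕ) (D : Finset V), D.card ≤ n →
    D.Nonempty → P4Free G D → ∀ p : Fin 2, GB 2 G D (fun _ => p) := by
  intro n
  induction n with
  | zero =>
    intro D h1 h2
    rw [Nat.le_zero, card_eq_zero] at h1
    rw [h1] at h2; simp at h2
  | succ n ih =>
    intro D h1 h2 hP p
    by_cases h3 : 2 ≤ D.card
    · obtain ⟨A, B, hA, hB, hd, hu, h⟩ := spl_of_p4free D.card G D le_rfl h3 hP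
      have hAD : A ⊆ D := by rw [← hu]; exact subset_union_left
      have hBD : B ⊆ D := by rw [← hu]; exact subset_union_right
      have hcard : A.card + B.card = D.card := by rw [← hu, card_union_of_disjoint hd]
      have hA0 := card_pos.2 hA
      have hB0 := card_pos.2 hB
      rw [← hu]
      rcases h with h | h
      · exact GB.union hd h (ih A (by omega) hA (hP.mono hAD) p) (ih B (by omega) hB (hP.mono hBD) p)
      · -- join the labels 0 and 1
        have gA := ih A (by omega) hA (hP.mono hAD) 0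
        have gB := ih B (by omega) hB (hP.mono hBD) 1
        let H : SimpleGraph V :=
          SimpleGraph.fromRel (fun x y => G.Adj x y ∧ ((x ∈ A ∧ y ∈ A) ∨ (x ∈ B ∧ y ∈ B)))
        have hH : ∀ x y, H.Adj x y ↔ G.Adj x y ∧ ((x ∈ A ∧ y ∈ A) ∨ (x ∈ B ∧ y ∈ B)) := by
          intro x y
          simp only [H, SimpleGraph.fromRel_adj]
          constructor
          · rintro ⟨-, ⟨h, h'⟩ | ⟨h, h'⟩⟩
            · exact ⟨h, h'⟩
            · exact ⟨h.symm, by tauto⟩
          · rintro ⟨h, h'⟩
            exact ⟨h.ne, Or.inl ⟨h, h'⟩⟩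
        have gA' : GB 2 H A (fun x => if x ∈ A then 0 else 1) := gA.congr (fun x hx y hy => by
          rw [hH]; exact ⟨fun h => ⟨h, Or.inl ⟨hx, hy⟩⟩, fun h => h.1⟩) fun x hx => by rw [if_pos hx]
        have gB' : GB 2 H B (fun x => if x ∈ A then 0 else 1) := gB.congr (fun x hx y hy => by
          rw [hH]; exact ⟨fun h => ⟨h, Or.inr ⟨hx, hy⟩⟩, fun h => h.1⟩) fun x hx => by
            rw [if_neg (fun hxA => (Finset.disjoint_left.1 hd) hxA hx)]
        have gU := (GB.union hd (fun x hx y hy h => by
          rw [hH] at h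
          rcases h.2 with ⟨_, h⟩ | ⟨h, _⟩
          · exact (Finset.disjoint_left.1 hd) h hy
          · exact (Finset.disjoint_left.1 hd) hx h) gA' gB').join (i := 0) (j := 1) (by decide)
        have gG : GB 2 G (A ∪ B) (fun x => if x ∈ A then 0 else 1) := by
          refine gU.congr (fun x hx y hy => ?_) fun _ _ => rfl
          rw [SimpleGraph.sup_adj, hH, SimpleGraph.fromRel_adj]
          constructor
          · rintro (h' | ⟨_, h' | h'⟩)
            · exact h'.1
            · have hxA : x ∈ A := by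
                by_contra hc; rw [if_neg hc] at h'; exact absurd h'.1 (by decide)
              have hyA : y ∉ A := by
                intro hc; rw [if_pos hc] at h'; exact absurd h'.2 (by decide)
              exact h x hxA y ((mem_union.1 hy).resolve_left hyA)
            · have hyA : y ∈ A := by
                by_contra hc; rw [if_neg hc] at h'; exact absurd h'.1 (by decide)
              have hxA : x ∉ A := by
                intro hc; rw [if_pos hc] at h'; exact absurd h'.2 (by decide)
              exact (h y hyA x ((mem_union.1 hx).resolve_left hxA)).symm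
          · intro h'
            rcases mem_union.1 hx with hxA | hxB <;> rcases mem_union.1 hy with hyA | hyB
            · exact Or.inl ⟨h', Or.inl ⟨hxA, hyA⟩⟩
            · exact Or.inr ⟨h'.ne, Or.inl ⟨if_pos hxA, if_neg (fun hc =>
                (Finset.disjoint_left.1 hd) hc hyB)⟩⟩
            · exact Or.inr ⟨h'.ne, Or.inr ⟨if_pos hyA, if_neg (fun hc =>
                (Finset.disjoint_left.1 hd) hc hxB)⟩⟩
            · exact Or.inl ⟨h', Or.inr ⟨hxB, hyB⟩⟩
        have g2 := (gG.relabel 0 p).relabel 1 p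
        refine g2.congr (fun _ _ _ _ => Iff.rfl) fun x _ => ?_
        by_cases hx : x ∈ A <;> fin_cases p <;> simp [hx]
    · obtain ⟨x, hx⟩ := h2
      have : D = {x} := by
        apply (Finset.eq_singleton_iff_unique_mem).2 ⟨hx, fun y hy => ?_⟩
        by_contra hne
        have : 2 ≤ D.card := Finset.one_lt_card.2 ⟨y, hy, x, hx, hne⟩
        omega
      rw [this]; exact GB.single x _

theorem cw_p4 {V : Type} [Finite V] (G : SimpleGraph V) (hG : ¬ IsITM P4 G) :
    cliqueWidth G ≤ 2 := by
  have := Fintype.ofFinite V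
  refine cw_le_of fun hV => ?_
  have hP : P4Free G univ := by
    intro a _ b _ c _ d _ hac had hbd hab hbc hcd
    by_contra hcon
    push Not at hcon
    obtain ⟨h1, h2, h3⟩ := hcon
    apply hG
    apply IsITM.of_ind
    refine emb4 hab.ne hac had hbc.ne hbd hcd.ne ?_ ?_ ?_ ?_ ?_ ?_ <;> rw [tgt0]
    · simpa [Tgt] using hab
    · simpa [Tgt] using h1
    · simpa [Tgt] using h2
    · simpa [Tgt] using hbc
    · simpa [Tgt] using h3
    · simpa [Tgt] using hcd
  exact cwLE_of_gb (gb_cograph _ univ le_rfl univ_nonempty hP 0)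

theorem cw_k2 {V : Type} [Finite V] (G : SimpleGraph V)
    (hG : ¬ IsITM (⊤ : SimpleGraph (Fin 2)) G) : cliqueWidth G ≤ 1 := by
  have := Fintype.ofFinite V
  refine cw_le_of fun hV => ?_
  have hno : ∀ a b, ¬ G.Adj a b := by
    intro a b hab
    apply hG
    apply IsITM.of_ind
    have hinj : Function.Injective ![a, b] := by
      have h1 := hab.ne
      intro i j hij
      fin_cases i <;> fin_cases j <;> simp_all
    refine ⟨⟨⟨![a, b], hinj⟩, ?_⟩⟩
    intro i j
    show G.Adj (![a, b] i) (![a, b] j) ↔ (⊤ : SimpleGraph (Fin 2)).Adj i j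
    have h1 := hab.symm
    fin_cases i <;> fin_cases j <;> simp_all
  exact cwLE_of_gb (q_indep (k := 0) 0 univ univ_nonempty (fun x _ y _ => hno x y)).toGB

theorem cw_k1 {V : Type} [Finite V] (G : SimpleGraph V)
    (hG : ¬ IsITM (⊤ : SimpleGraph (Fin 1)) G) : cliqueWidth G ≤ 0 := by
  refine cw_le_of fun ⟨x⟩ => ?_
  exfalso
  apply hG
  apply IsITM.of_ind
  refine ⟨⟨⟨fun _ => x, fun i j _ => Subsingleton.elim i j⟩, ?_⟩⟩
  intro i j
  rw [Subsingleton.elim i j]
  simp

end Pool.Agent.KS6_18.ITM
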